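import Pool.Agent.Q196.OP.Near

set_option autoImplicit false

namespace Q196.OP

open Set Metric Topology Filter

theorem continuous_p (i : I) : Continuous fun w : V => p w i := by
  have h : ∀ n, Continuous fun w : V => sel (ofV w) n := cont_sel
  generalize hg : (fun (n : ℕ) (w : V) => sel (ofV w) n) = g
  have h' : ∀ n, Continuous (g n) := by rw [← hg]; exact h
  have e : ∀ n (w : V), sel (ofV w) n = g n w := fun n w => by rw [← hg]
  have e2 : (fun w : V => p w i) = fun w : V =>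
      (WithLp.toLp 2 ![g (cd i).x w, g (cd i).y w, g (cd i).z w, g (cd i).t w] : V) := by
    funext w
    simp only [p, toV, act, e]
  rw [e2]
  refine (PiLp.continuous_toLp 2 _).comp ?_
  refine continuous_pi fun j => ?_
  fin_cases j
  · exact h' _
  · exact h' _
  · exact h' _
  · exact h' _

/-- Translation of facets. -/
theorem fac_trans {w : V} {U : V ≃ₗᵢ[ℝ] V} {σ : Equiv.Perm I} (hU : ∀ j, p w (σ j) = U (p w j))
    (T : Set I) : IsFac (p w) T ↔ IsFac (p w) {j | σ j ∈ T} := by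
  have hin : ∀ (l : V) (j : I), inner ℝ l (p w (σ j)) = inner ℝ (U.symm l) (p w j) := by
    intro l j
    rw [hU, ← U.inner_map_map (U.symm l) (p w j), U.apply_symm_apply]
  constructor
  · rintro ⟨l, hs, hT, hu⟩
    refine ⟨U.symm l, fun j => ?_, ?_, fun l' hl' => ?_⟩
    · rw [← hin]; exact hs _
    · ext j
      simp only [Con, mem_setOf_eq, ← hT, hin]
    · have h1 := hu (U l') fun i hi => by
        have h2 := hin (U l') (σ.symm i)
        rw [σ.apply_symm_apply, U.symm_apply_apply] at h2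
        rw [h2]
        exact hl' _ (by simpa using hi)
      rw [← h1, U.symm_apply_apply]
  · rintro ⟨l, hs, hT, hu⟩
    have hin' : ∀ (l : V) (i : I), inner ℝ (U l) (p w i) = inner ℝ l (p w (σ.symm i)) := by
      intro l i
      have h2 := hin (U l) (σ.symm i)
      rwa [σ.apply_symm_apply, U.symm_apply_apply] at h2
    refine ⟨U l, fun i => ?_, ?_, fun l' hl' => ?_⟩
    · rw [hin']; exact hs _
    · ext i
      simp only [Con, mem_setOf_eq]
      rw [hin']
      have h3 : (σ.symm i ∈ Con (p w) l) ↔ σ.symm i ∈ {j | σ j ∈ T} := by rw [hT]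
      simpa [Con] using h3
    · have h1 := hu (U.symm l') fun j hj => by
        rw [← hin]; exact hl' _ hj
      rw [← h1, U.apply_symm_apply]

/-- The facets at `w0` are translates of the listed ones. -/
theorem fac_w0 (hG : S_GRP) (hC : S_CERT) (T : Set I) (hT : IsFac (p w0) T) :
    ∃ (U : V ≃ₗᵢ[ℝ] V) (σ : Equiv.Perm I), (∀ w j, p w (σ j) = U (p w j)) ∧
      ∃ L ∈ faces, {j | σ j ∈ T} = {i | i ∈ L} := by
  have hne : T.Nonempty := by
    by_contra h
    rw [not_nonempty_iff_eq_empty] at h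
    obtain ⟨l, _, _, hu⟩ := hT
    have h1 := hu (l + w0) fun i hi => by rw [h] at hi; exact absurd hi (notMem_empty i)
    exact w0_ne (by simpa using h1)
  obtain ⟨i, hi⟩ := hne
  obtain ⟨U, σ, h0, hU⟩ := hG.2 i
  refine ⟨U, σ, hU, ?_⟩
  exact hC _ ((fac_trans (fun j => hU w0 j) T).1 hT) (by simpa [h0] using hi)

/-- The facets at a nearby point are contained in facets at `w0`. -/
theorem fac_sub (hF : S_FAC) (hGd : S_GOOD) {w : V}
    (husc : ∀ S : Set I, (∃ l, Supp (p w) l ∧ S ⊆ Con (p w) l) →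
      ∃ l, Supp (p w0) l ∧ S ⊆ Con (p w0) l) {T : Set I} (hT : IsFac (p w) T) :
    ∃ T0, IsFac (p w0) T0 ∧ T ⊆ T0 := by
  obtain ⟨l, hs, hl, _⟩ := hT
  obtain ⟨l0, hs0, hl0⟩ := husc T ⟨l, hs, hl.ge⟩
  have hg := (hGd w0).1 w0_ne
  have hex : ∃ i, i ∉ Con (p w0) l0 := by
    by_contra h
    push Not at h
    obtain ⟨j, hj⟩ := hg.1 0
    have h1 : inner ℝ l0 (p w0 0) = 1 := h 0
    have h2 : inner ℝ l0 (p w0 j) = 1 := h j
    rw [hj, inner_neg_right, h1] at h2
    norm_num at h2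
  obtain ⟨i, hi⟩ := hex
  obtain ⟨T0, h1, h2, _⟩ := hF _ hg _ i ⟨l0, hs0, rfl⟩ hi
  exact ⟨T0, h1, hl0.trans h2⟩

/-- Two nested facets are equal. -/
theorem fac_eq {q : I → V} {T T0 : Set I} (hT : IsFac q T) (hT0 : IsFac q T0) (h : T ⊆ T0) :
    T = T0 := by
  obtain ⟨l, _, hl, hu⟩ := hT
  obtain ⟨l0, _, hl0, _⟩ := hT0
  have h1 := hu l0 fun i hi => by
    have := h hi
    rw [← hl0] at this
    exact this
  rw [← hl, ← hl0, h1]

theorem faces_card (L : List I) (hL : L ∈ faces) : {i | i ∈ L}.ncard = L.length := by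
  have hnd : ∀ L ∈ faces, L.Nodup := by decide
  have h1 : {i | i ∈ L} = (L.toFinset : Set I) := by ext i; simp
  rw [h1, ncard_coe_finset, List.toFinset_card_of_nodup (hnd L hL)]

/-- The local analysis. -/
theorem local_type (hF : S_FAC) (hL : S_LAT) (hI : S_ISO) (hV : S_INV) (hU : S_USC) (hG : S_GRP)
    (hGd : S_GOOD) (hIn : S_INJ) (hC : S_CERT) (hN : S_NEAR) :
    ∀ᶠ w in 𝓝 w0, (SameType (Q (p w)) (Q (p w0)) ↔ cross w = 0) := by
  have husc := hU p w0 continuous_p ⟨2, by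
    have h1 : ∀ᶠ w in 𝓝 w0, 1 < ‖w‖ := by
      refine continuous_norm.continuousAt.eventually_const_lt ?_
      simp [w0, EuclideanSpace.norm_eq, Fin.sum_univ_four]
      norm_num
      rw [Real.lt_sqrt (by norm_num)]
      norm_num
    filter_upwards [h1] with w hw l hl
    have h2 := (hGd w).2 l hl
    nlinarith [norm_nonneg l]⟩
  have hne : ∀ᶠ w in 𝓝 w0, w ≠ 0 := continuousAt_id.eventually_ne w0_ne
  have hN0 := hN.self_of_nhds
  have hI0 := hIn.self_of_nhds
  filter_upwards [husc, hN, hIn, hne] with w h1 h2 h3 h4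
  have g := (hGd w).1 h4
  have g0 := (hGd w0).1 w0_ne
  have c0 : cross w0 = 0 := by simp [cross, w0]
  obtain ⟨f1⟩ := hI _ g
  obtain ⟨f0⟩ := hI _ g0
  constructor
  · intro hs
    by_contra hcr
    obtain ⟨f⟩ := hs
    have hfa : Nonempty (Fa (p w0) ≃o Fa (p w)) := ⟨(f1.symm.trans (f.trans f0)).symm⟩
    have hL5 : ([0, 5, 6, 8, 10] : List I) ∈ faces := by decide
    have h5 := (hN0 _ hL5).1 (Or.inr c0)
    obtain ⟨T, hT, hTc⟩ := hV _ _ g0 g hI0 h3 hfa 5 ⟨_, h5, faces_card _ hL5⟩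
    obtain ⟨T0, hT0, hsub⟩ := fac_sub hF hGd h1 hT
    obtain ⟨U, σ, hUσ, L, hLf, hLe⟩ := fac_w0 hG hC T0 hT0
    have hcard : T0.ncard = L.length := by
      rw [← faces_card L hLf, ← hLe]
      have : T0 = σ '' {j | σ j ∈ T0} := by
        ext i
        simp only [mem_image, mem_setOf_eq]
        exact ⟨fun h => ⟨σ.symm i, by simpa using h, by simp⟩, fun ⟨j, hj, hji⟩ => hji ▸ hj⟩
      conv_lhs => rw [this]
      rw [ncard_image_of_injective _ σ.injective]
    by_cases hlen : L.length = 5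
    · have hTT : T = T0 := eq_of_subset_of_ncard_le hsub (by rw [hTc, hcard, hlen]) (toFinite _)
      apply (h2 L hLf).2 hlen hcr
      obtain ⟨l, _, hlT, _⟩ := hT
      refine ⟨U.symm l, fun i hi => ?_⟩
      have hi' : i ∈ {j | σ j ∈ T0} := by rw [hLe]; exact hi
      have h6 : σ i ∈ Con (p w) l := by rw [hlT, hTT]; exact hi'
      have h7 : inner ℝ l (p w (σ i)) = 1 := h6
      rw [← h7, hUσ, ← U.inner_map_map (U.symm l) (p w i), U.apply_symm_apply]
    · have h6 := (h2 L hLf).1 (Or.inl hlen)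
      rw [← hLe] at h6
      have h7 := (fac_trans (fun j => hUσ w j) T0).2 h6
      have h8 := fac_eq hT h7 hsub
      rw [h8, hcard] at hTc
      exact hlen hTc
  · intro hcr
    have k1 : ∀ T, IsFac (p w0) T → IsFac (p w) T := by
      intro T hT
      obtain ⟨U, σ, hUσ, L, hLf, hLe⟩ := fac_w0 hG hC T hT
      have h6 := (h2 L hLf).1 (Or.inr hcr)
      rw [← hLe] at h6
      exact (fac_trans (fun j => hUσ w j) T).2 h6
    have k2 : ∀ T, IsFac (p w) T ↔ IsFac (p w0) T := by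
      intro T
      refine ⟨fun hT => ?_, k1 T⟩
      obtain ⟨T0, hT0, hsub⟩ := fac_sub hF hGd h1 hT
      rw [fac_eq hT (k1 T0 hT0) hsub]
      exact hT0
    have k3 := hL _ _ g g0 k2
    have k4 : Nonempty (Fa (p w) ≃o Fa (p w0)) := by
      refine ⟨⟨Equiv.subtypeEquivRight fun S => ?_, ?_⟩⟩
      · rw [k3]
      · intro a b
        exact Iff.rfl
    obtain ⟨f⟩ := k4
    exact ⟨f1.trans (f.trans f0.symm)⟩

/-- The class, for a subgroup with the given orbits. -/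
theorem final (hF : S_FAC) (hL : S_LAT) (hI : S_ISO) (hV : S_INV) (hU : S_USC) (hS : S_SUBM)
    (hG : S_GRP) (hGd : S_GOOD) (hIn : S_INJ) (hC : S_CERT) (hN : S_NEAR) :
    ∃ (Γ : Subgroup (V ≃ₗᵢ[ℝ] V)) (r : ℝ) (w : V), Finite Γ ∧ 0 < r ∧ ‖w‖ = r ∧
      ¬ IsSubmanifold (connectedComponentIn {w' | ‖w'‖ = r ∧
        SameType (convexHull ℝ {x | ∃ g ∈ Γ, g w' = x}) (convexHull ℝ {x | ∃ g ∈ Γ, g w = x})} w) := by
  obtain ⟨⟨Γ, hfin, horb⟩, _⟩ := id hG
  refine ⟨Γ, ‖w0‖, w0, hfin, norm_pos_iff.2 w0_ne, rfl, ?_⟩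
  have hset : {w' : V | ‖w'‖ = ‖w0‖ ∧ SameType (convexHull ℝ {x | ∃ g ∈ Γ, g w' = x})
      (convexHull ℝ {x | ∃ g ∈ Γ, g w0 = x})} =
      {w' : V | ‖w'‖ = ‖w0‖ ∧ SameType (Q (p w')) (Q (p w0))} := by
    ext w'
    simp only [mem_setOf_eq, horb, Q]
  rw [hset]
  have hloc := local_type hF hL hI hV hU hG hGd hIn hC hN
  have hn0 : ‖w0‖ = Real.sqrt 35 := by
    simp [w0, EuclideanSpace.norm_eq, Fin.sum_univ_four]
    norm_num
  have hcr : ∀ x : V, cross x = inner ℝ (!₂[0, 0, 1, 0] : V) x * inner ℝ (!₂[1, -1, 0, -2] : V) x := by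
    intro x
    have e1 : inner ℝ (!₂[0, 0, 1, 0] : V) x = x 2 := by
      simp [PiLp.inner_apply, Fin.sum_univ_four]
    have e2 : inner ℝ (!₂[1, -1, 0, -2] : V) x = x 0 - x 1 - 2 * x 3 := by
      simp [PiLp.inner_apply, Fin.sum_univ_four]
      ring
    rw [e1, e2, cross]
  have h35 : Real.sqrt 35 ≠ 0 := by positivity
  obtain ⟨s, hs0, hs2⟩ : ∃ s : ℝ, 0 < s ∧ s ^ 2 = 7 / 2 :=
    ⟨Real.sqrt (7 / 2), by positivity, Real.sq_sqrt (by norm_num)⟩
  refine hS _ w0 (!₂[0, 0, 1, 0] : V) (!₂[1, -1, 0, -2] : V) (s • (!₂[1, 0, 0, 3] : V))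
    (Real.sqrt 35 • (!₂[0, 0, 1, 0] : V)) w0_ne ?_ ?_ ?_ ?_ ?_ ?_ ?_ ?_ ?_ ?_ ?_
  · filter_upwards [hloc] with x hx
    rw [← hcr]
    simp only [mem_setOf_eq, hx]
  · simp [w0, PiLp.inner_apply, Fin.sum_univ_four]
  · simp [w0, PiLp.inner_apply, Fin.sum_univ_four]; norm_num
  · simp [w0, PiLp.inner_apply, Fin.sum_univ_four]
    ring
  · simp [w0, PiLp.inner_apply, Fin.sum_univ_four]
  · have h10 : ‖(!₂[1, 0, 0, 3] : V)‖ = Real.sqrt 10 := by
      simp [EuclideanSpace.norm_eq, Fin.sum_univ_four]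
      norm_num
    rw [norm_smul, hn0, h10, Real.norm_of_nonneg hs0.le, ← Real.sqrt_sq hs0.le, hs2,
      ← Real.sqrt_mul (by norm_num)]
    norm_num
  · rw [norm_smul, hn0]
    simp [EuclideanSpace.norm_eq, Fin.sum_univ_four]
  · simp [PiLp.inner_apply, Fin.sum_univ_four]
  · simp [PiLp.inner_apply, Fin.sum_univ_four]
  · simp [PiLp.inner_apply, Fin.sum_univ_four]
  · have e : inner ℝ (!₂[1, -1, 0, -2] : V) (s • (!₂[1, 0, 0, 3] : V)) = s * (-5) := by
      simp [PiLp.inner_apply, Fin.sum_univ_four]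
      ring
    rw [e]
    exact mul_ne_zero hs0.ne' (by norm_num)

end Q196.OP
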