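import Pool.Agent.Q196.OP.Def

/-!
# Orbit polytopes (project OP, MP_7b675e_co): statements with proofs in the docstrings

FULL ANSWER (NO): for a group `Γ` of order 48 (`GL(2,3)`, signed permutations of `R^4`) the class of
`w0 = (3,5,0,-1)` is, near `w0`, the union of the two hyperplanes `c = 0` and `a = b + 2 d` of the
sphere: not a submanifold.
-/

set_option autoImplicit false

namespace Q196.OP

open Set Metric Topology Filter

/-! ## Abstract part -/

/-- FAC: contact sets are separated from points by facets.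
Proof: the sets `T` with `IsCon p T`, `S ⊆ T`, `i ∉ T` are finitely many (sets of `Fin 48`) and `S` is one
of them; choose one, `T`, with `T.ncard` maximal (`Set.Finite.exists_maximal...` or strong induction on
`48 - ncard`), with functional `l`. Claim `IsFac p T`. If not, there is `l' ≠ l` with
`⟪l', p j⟫ = 1` for `j ∈ T`; put `m = l' - l ≠ 0`, so `⟪m, p j⟫ = 0` for `j ∈ T`. By `Good` there is `j`
with `⟪m, p j⟫ ≠ 0`, and with the antipodal point both signs occur. Hence
`t1 = min over j with ⟪m,p j⟫ > 0 of (1 - ⟪l,p j⟫)/⟪m,p j⟫` exists and is `> 0` (such `j` are not in `T`, so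
`⟪l,p j⟫ < 1`), `l + t1 m` is `Supp`, its contact set contains `T` and the minimising `j`. In the same way
`t2 > 0` for `-m`. If `i` is in neither of the two contact sets... in fact `i` cannot be in both: then
`⟪l,p i⟫ + t1 ⟪m,p i⟫ = 1 = ⟪l,p i⟫ - t2 ⟪m,p i⟫`, so `⟪m,p i⟫ = 0` and `⟪l,p i⟫ = 1`, i.e. `i ∈ T`,
contradiction. So one of the two contact sets is a strictly larger competitor. (Apply a lemma
`step : ∃ t > 0, Supp p (l + t • m) ∧ T ⊂ Con p (l + t • m)` to `m` and `-m`.) -/
def S_FAC : Prop := ∀ p : I → V, Good p → ∀ (S : Set I) (i : I), IsCon p S → i ∉ S →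
  ∃ T, IsFac p T ∧ S ⊆ T ∧ i ∉ T

/-- LAT: the facets determine the contact sets.
Proof: by symmetry one inclusion. For `IsCon p S`: `S` is the intersection of all `T` with `IsFac p T`,
`S ⊆ T` (FAC), and there is at least one such `T` (there is `i ∉ S`: otherwise all `⟪l,p i⟫ = 1`, but the
family is symmetric and `I` is nonempty). Conversely if a set `S` is the intersection of a nonempty (finite)
family of contact sets of `p'`, then the average of the functionals (`(1/n) • ∑`) is `Supp` with contact set
the intersection. (Induction version: if `S1, S2` are contact sets of `p'` then `S1 ∩ S2` is, with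
`(l1 + l2)/2`; then `Set.Finite` induction over the finite family of facets containing `S`.) -/
def S_LAT : Prop := ∀ p p' : I → V, Good p → Good p' → (∀ T, IsFac p T ↔ IsFac p' T) →
  ∀ S, IsCon p S ↔ IsCon p' S

/-- ISO: the lattice of exposed faces of the polytope is the lattice of contact sets.
Proof: send `F` to `{i | p i ∈ F}` and `S` to `convexHull ℝ (p '' S)`.
(1) Let `F` be exposed. If `F = ∅` its image is `∅`, which is the contact set of `l = 0`. Otherwise
`F = {x ∈ Q | l x = m}`, `m` the maximum of `l` on `Q` (`l : StrongDual ℝ V` is `inner ℝ u` for some `u`,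
`InnerProductSpace.toDual`). If `u = 0` then `F = Q` and the image is `univ`. If `u ≠ 0` then by `Good` some
`⟪u,p i⟫ ≠ 0`, with the antipodal point `m > 0`; `m⁻¹ • u` is `Supp` and its contact set is the image.
(2) `F = convexHull ℝ (p '' {i | p i ∈ F})`: `Q` is compact (`(finite_range p).isCompact_convexHull`), `F` is
compact and convex (`IsExposed.isCompact`, `IsExposed.convex`), so
`F = closure (convexHull (F.extremePoints ℝ))` (`closure_convexHull_extremePoints`), and
`F.extremePoints ⊆ Q.extremePoints ⊆ range p` (`IsExtreme.extremePoints_subset_extremePoints`,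
`extremePoints_convexHull_subset`).
(3) For `IsCon p S` with functional `l`: `{x ∈ Q | ⟪l,x⟫ = 1}` is exposed if `S` is nonempty (`⟪l,x⟫ ≤ 1` on `Q`),
and its index set is `S`; `S = ∅` comes from the exposed set `∅`, `univ` from `Q`.
So the map is a bijection (injective by (2)) and order reflecting by (2), order preserving trivially:
`OrderIso` via `Equiv.ofBijective` and `map_rel_iff`. -/
def S_ISO : Prop := ∀ p : I → V, Good p → Nonempty ({F : Set V // IsExposed ℝ (Q p) F} ≃o Fa p)

/-- INV: isomorphic face lattices have facets with the same numbers of vertices.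
Proof: let `f : Fa p ≃o Fa p'`. The bottom element of both is `∅` (contact set of `0`). The atoms of `Fa p` are
exactly the singletons `{i}` (they are in `Fa p` by hypothesis and a nonempty `S` contains some `{i}`). So
`f {i} = {σ i}` for an injective map `σ : I → I`, a bijection since `I` is finite (or use `f.symm` too), and
`i ∈ S ↔ {i} ≤ S ↔ {σ i} ≤ f S ↔ σ i ∈ f S`; hence `f S = σ '' S` and `ncard (f S) = ncard S`.
If `IsFac p T` with functional `l` then `T ≠ univ`, and `T` is a coatom of `Fa p`: if `T ⊆ T'`, `IsCon p T'` with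
functional `l'`, then `l' = l` and `T' = T`. So `f T` is a coatom of `Fa p'`, in particular `f T ≠ univ` and
`IsCon p' (f T)`; choose `i ∉ f T`; by FAC there is `T1` with `IsFac p' T1`, `f T ⊆ T1`, `T1 ≠ univ`; since
`f T` is a coatom, `T1 = f T`. -/
def S_INV : Prop := ∀ p p' : I → V, Good p → Good p' → (∀ i, IsCon p {i}) → (∀ i, IsCon p' {i}) →
  Nonempty (Fa p ≃o Fa p') → ∀ n : ℕ, (∃ T, IsFac p T ∧ T.ncard = n) → ∃ T, IsFac p' T ∧ T.ncard = n

/-- USC: upper semicontinuity of contact sets.
Proof: `Set I` is finite, so by `Filter.eventually_all` it is enough to treat one `S`. If the conclusion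
holds for `S` nothing is to prove. Otherwise let `ε > 0` be such that the bound holds for
`w ∈ closedBall w0 ε`, and let `K ⊆ V × V` be the set of `(w, l)` with `w ∈ closedBall w0 ε`, `l ∈ closedBall 0 R`,
`Supp (p w) l`, `S ⊆ Con (p w) l`. It is compact (closed in a compact product, all conditions are closed by
continuity), so its image under `Prod.fst` is compact, hence closed, and does not contain `w0`; so a
neighbourhood of `w0` (intersected with the ball) has no `w` with a functional `l` as in the hypothesis. -/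
def S_USC : Prop := ∀ (p : V → I → V) (w0 : V), (∀ i, Continuous fun w => p w i) →
  (∃ R : ℝ, ∀ᶠ w in 𝓝 w0, ∀ l, Supp (p w) l → ‖l‖ ≤ R) →
  ∀ᶠ w in 𝓝 w0, ∀ S : Set I, (∃ l, Supp (p w) l ∧ S ⊆ Con (p w) l) →
    ∃ l, Supp (p w0) l ∧ S ⊆ Con (p w0) l

/-- SUBM: a crossing of two hyperplanes is not a submanifold.
Here `C` is a set which near `w` coincides with `{x ∈ sphere | ⟪a,x⟫ ⟪b,x⟫ = 0}`.
Proof: `γ1 t = cos t • w + sin t • u` and `γ2 t = cos t • w + sin t • v` are curves on the sphere with
`γ(0) = w`, with derivatives `u`, `v` at `0`, and `⟪a, γ1 t⟫ = 0`, `⟪b, γ2 t⟫ = 0`. For small `ε` the images of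
`Ioo (-ε) ε` are in `C` and connected, so they are in `M = connectedComponentIn C w`
(`IsPreconnected.subset_connectedComponentIn`). Suppose `IsSubmanifold M`, take the chart `φ`, `F` at `w` (`w ∈ M`:
`mem_connectedComponentIn`). `φ ∘ γ1` is in `F` for small `t`, so its derivative `Dφ u` at `0` is in the closed
subspace `F` (limit of difference quotients), also `Dφ v`. Let `s = Dφ u + Dφ v = Dφ (u + v) ∈ F` and
`q t = φ.symm (φ w + t • s)`. For small `t` the point `φ w + t • s` is in `F ∩ φ.target`
(`φ w ∈ F` since `w ∈ M`), so `q t ∈ M ⊆ C` (apply the chart equation and `φ.left_inv`). `q` has derivative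
`Dψ (Dφ (u+v)) = u + v` at `0`, where `ψ = φ.symm` (chain rule for `ψ ∘ φ = id` near `w`; both are differentiable
there because the source and target are open). `q t → w`, so `⟪a,q t⟫ ⟪b,q t⟫ = 0` for small `t`. But
`⟪a, q t⟫` has derivative `⟪a,u+v⟫ = ⟪a,v⟫ ≠ 0` at `0`, so it is nonzero for small `t ≠ 0`
(`HasDerivAt.eventually_ne`), and the same for `⟪b,q t⟫` with derivative `⟪b,u⟫ ≠ 0`. Contradiction. -/
def S_SUBM : Prop := ∀ (C : Set V) (w a b u v : V), w ≠ 0 →
  (∀ᶠ x in 𝓝 w, x ∈ C ↔ (‖x‖ = ‖w‖ ∧ inner ℝ a x * inner ℝ b x = 0)) →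
  inner ℝ a w = 0 → inner ℝ b w = 0 → inner ℝ u w = 0 → inner ℝ v w = 0 → ‖u‖ = ‖w‖ → ‖v‖ = ‖w‖ →
  inner ℝ a u = 0 → inner ℝ b v = 0 → inner ℝ a v ≠ 0 → inner ℝ b u ≠ 0 →
  ¬ IsSubmanifold (connectedComponentIn C w)

/-! ## Concrete part -/

/-- GRP: the group. Proof: carrier `{g | ∃ i : I, ∀ w, g w = p w i}`. Closed under products and inverses by a
finite check on codes: `comp c d = ⟨selN d c.x, selN d c.y, selN d c.z, selN d c.t⟩` with
`selN d n = entry n` for `n < 4` and `(entry (n-4) + 4) % 8` otherwise is the code of `act c ∘ act d`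
(`sel v ((n+4) % 8) = - sel v n` for `n < 8`, by cases), and `comp c d ∈ codes`, `∃ d ∈ codes, comp c d = ⟨0,1,2,3⟩`
by `decide` (all entries are `< 8`). Every `act (cd i)` comes from an isometry: it is linear and preserves
`a^2+b^2+c^2+d^2` (48 cases: `fin_cases i` or `codes.all` and a general lemma that codes have entries which are
a permutation mod 4), bijective because the inverse code is in the list (`LinearIsometryEquiv` from
`LinearIsometry` with right inverse, or `LinearIsometry.toLinearIsometryEquiv rfl`). The translation `σ` of the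
second part is the left multiplication `j ↦` the index of `comp (cd i) (cd j)`; it is injective because `U` is
and `i ↦ cd i` is injective and determined by `p w i` for `w = (1,2,3,4)`; `σ 0 = i` since `cd 0` is the identity. -/
def S_GRP : Prop := (∃ Γ : Subgroup (V ≃ₗᵢ[ℝ] V), (Γ : Set (V ≃ₗᵢ[ℝ] V)).Finite ∧
    ∀ w : V, {x : V | ∃ g ∈ Γ, g w = x} = range (p w)) ∧
  ∀ i : I, ∃ (U : V ≃ₗᵢ[ℝ] V) (σ : Equiv.Perm I), σ 0 = i ∧ ∀ w j, p w (σ j) = U (p w j)

/-- GOOD: the orbit of a nonzero vector is symmetric and spanning, with a bound for the functionals.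
Proof: the codes `c` and `⟨(c.x+4)%8, ...⟩` give antipodal points (finite check, `fin_cases i`, or: number 27 is `-1`
and the list is closed under negation: `decide`). The elements with codes
`⟨0,1,2,3⟩, ⟨7,6,1,0⟩, ⟨6,3,0,5⟩, ⟨5,0,7,2⟩` (numbers 0, 47, 38, 30) map `w = (a,b,c,d)` to four orthogonal vectors
`(a,b,c,d), (-d,-c,b,a), (-c,d,a,-b), (-b,a,-d,c)` of the same length, so by the four square identity (`ring`)
`∑ ⟪l, p w i⟫^2` over these four `i` is `‖l‖^2 ‖w‖^2`. -/
def S_GOOD : Prop := ∀ w : V, (w ≠ 0 → Good (p w)) ∧ ∀ l, Supp (p w) l → ‖l‖ * ‖w‖ ≤ 2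

/-- INJ: near `w0` all singletons are contact sets.
Proof: at `w0` the 48 points are distinct (finite check with integers); by continuity of `w ↦ p w i`
(`p w i - p w j ≠ 0` is an open condition) they are distinct for `w` near `w0`, and `w ≠ 0`. All points have the
norm `‖w‖` (48 cases or the isometries of GRP), so `l = (‖w‖^2)⁻¹ • p w i` has `⟪l, p w j⟫ < 1` for `j ≠ i`
(Cauchy-Schwarz, equality only for equal vectors: `‖x - y‖^2 = 2‖w‖^2 - 2⟪x,y⟫ > 0`). -/
def S_INJ : Prop := ∀ᶠ w in 𝓝 w0, ∀ i, IsCon (p w) {i}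

/-- CERT: the facets at `w0` through the point 0 (finite check, done by helper196). -/
def S_CERT : Prop := ∀ T, IsFac (p w0) T → (0 : I) ∈ T → ∃ L ∈ faces, T = {i | i ∈ L}

/-- NEAR: the facets near `w0` through the point 0 (done by helper196). -/
def S_NEAR : Prop := ∀ᶠ w in 𝓝 w0, ∀ L ∈ faces,
  ((L.length ≠ 5 ∨ cross w = 0) → IsFac (p w) {i | i ∈ L}) ∧
  (L.length = 5 → cross w ≠ 0 → ¬ ∃ l : V, ∀ i ∈ L, inner ℝ l (p w i) = 1)

end Q196.OP
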