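import Pool.Agent.Q196.OP.Chk
import Pool.Agent.Q196.OP.Stm

set_option autoImplicit false

namespace Q196.OP

open Set Metric Topology

/-- Cast of integer entries. -/
def cast4 (v : Q4 ℤ) : Q4 ℝ := ⟨v.x, v.y, v.z, v.t⟩

theorem sel_cast (v : Q4 ℤ) (n : ℕ) : sel (cast4 v) n = ((sel v n : ℤ) : ℝ) := by
  unfold sel cast4
  split <;> simp

theorem act_cast (c : Q4 ℕ) (v : Q4 ℤ) : act c (cast4 v) = cast4 (act c v) := by
  simp only [act, sel_cast]; rfl

theorem ofV_w0 : ofV w0 = cast4 wZ := by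
  simp [ofV, w0, cast4, wZ]

/-- The point number `i`. -/
def pt (i : I) : Q4 ℤ := pts.getD i.1 wZ

theorem pt_eq (i : I) : pt i = act (cd i) wZ := by
  revert i; decide +kernel

theorem pt_inj : Function.Injective pt := by
  have h : ∀ i j : I, pt i = pt j → i = j := by decide +kernel
  exact fun i j hij => h i j hij

theorem ofV_toV (v : Q4 ℝ) : ofV (toV v) = v := by
  simp [ofV, toV]

theorem inner_eq (u v : V) : inner ℝ u v = dot (ofV u) (ofV v) := by
  simp only [dot, ofV, PiLp.inner_apply, Fin.sum_univ_four, RCLike.inner_apply, conj_trivial]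
  ring

theorem ofV_p (w : V) (i : I) : ofV (p w i) = act (cd i) (ofV w) := by
  simp only [p, ofV_toV]

theorem ofV_p0 (i : I) : ofV (p w0 i) = cast4 (pt i) := by
  rw [ofV_p, ofV_w0, act_cast, pt_eq]

theorem pt_zero : pt 0 = wZ := by decide +kernel

/-- The determinant as a function of three indices. -/
def Dt (a b c : I) : ℤ := dot (cr (sub (pt a) wZ) (sub (pt b) wZ) (sub (pt c) wZ)) wZ

theorem Dt_swap1 (a b c : I) : Dt b a c = - Dt a b c := by
  simp only [Dt, dot, cr, sub]; ring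

theorem Dt_swap2 (a b c : I) : Dt a c b = - Dt a b c := by
  simp only [Dt, dot, cr, sub]; ring

/-- Extending a linearly independent family by a point of `T`. -/
theorem ext_li {n : ℕ} (hn : n < 4) (v : I → V) (T : Set I)
    (h : ∀ l : V, (∀ i ∈ T, inner ℝ l (v i) = 0) → l = 0) (u : Fin n → V)
    (hu : LinearIndependent ℝ u) :
    ∃ a ∈ T, LinearIndependent ℝ (Fin.snoc u (v a) : Fin (n + 1) → V) := by
  by_contra hcon
  push Not at hcon
  have h1 : ∀ a ∈ T, v a ∈ Submodule.span ℝ (range u) := by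
    intro a ha
    by_contra h2
    exact hcon a ha (linearIndependent_finSnoc.2 ⟨hu, h2⟩)
  set K := Submodule.span ℝ (range u) with hK
  have h2 : Kᗮ ≠ ⊥ := by
    intro h3
    rw [Submodule.orthogonal_eq_bot_iff] at h3
    have h4 : Module.finrank ℝ K = n := by
      rw [hK, finrank_span_eq_card hu, Fintype.card_fin]
    rw [h3, finrank_top, finrank_euclideanSpace, Fintype.card_fin] at h4
    omega
  obtain ⟨l, hl, hl0⟩ := (Submodule.ne_bot_iff _).1 h2
  refine hl0 (h l fun i hi => ?_)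
  rw [real_inner_comm]
  exact (Submodule.mem_orthogonal K l).1 hl _ (h1 i hi)

/-- Linearly independent vectors have nonzero determinant. -/
theorem det_ne (x1 x2 x3 x4 : V) (h : LinearIndependent ℝ ![x1, x2, x3, x4]) :
    dot (cr (sub (ofV x2) (ofV x1)) (sub (ofV x3) (ofV x1)) (sub (ofV x4) (ofV x1))) (ofV x1)
      ≠ 0 := by
  set M : Matrix (Fin 4) (Fin 4) ℝ := fun i j => (![x1, x2, x3, x4] i) j with hM
  have h1 : LinearIndependent ℝ M.row := by
    have h2 := h.map' (WithLp.linearEquiv 2 ℝ (Fin 4 → ℝ)).toLinearMap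
      (LinearMap.ker_eq_bot.2 (WithLp.linearEquiv 2 ℝ (Fin 4 → ℝ)).injective)
    exact h2
  rw [Matrix.linearIndependent_rows_iff_isUnit, Matrix.isUnit_iff_isUnit_det, isUnit_iff_ne_zero]
    at h1
  intro h0
  apply h1
  rw [← h0]
  simp [Matrix.det_succ_row_zero, Fin.sum_univ_succ, hM, dot, cr, sub, ofV, Fin.succAbove]
  ring

theorem dt_cast (A B C W : Q4 ℤ) :
    dot (cr (sub (cast4 A) (cast4 W)) (sub (cast4 B) (cast4 W)) (sub (cast4 C) (cast4 W))) (cast4 W)
      = ((dot (cr (sub A W) (sub B W) (sub C W)) W : ℤ) : ℝ) := by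
  simp only [dot, cr, sub, cast4]; push_cast; ring

theorem p_zero (w : V) : p w 0 = w := by
  have h : cd 0 = ⟨0, 1, 2, 3⟩ := by decide +kernel
  ext i
  simp only [p, h, act, sel, ofV, toV]
  fin_cases i <;> rfl

theorem w0_ne : w0 ≠ 0 := by
  intro h
  have h1 : w0 0 = (0 : V) 0 := by rw [h]
  simp [w0] at h1

theorem exists_tri (T : Set I) (h0 : (0 : I) ∈ T)
    (h : ∀ l : V, (∀ i ∈ T, inner ℝ l (p w0 i) = 0) → l = 0) :
    ∃ a ∈ T, ∃ b ∈ T, ∃ c ∈ T, Dt a b c ≠ 0 := by
  have hb : LinearIndependent ℝ (Fin.snoc (![] : Fin 0 → V) (p w0 0) : Fin 1 → V) := by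
    rw [linearIndependent_finSnoc]
    refine ⟨linearIndependent_empty_type, ?_⟩
    simp [p_zero, w0_ne]
  obtain ⟨a, ha, hA⟩ := ext_li (by norm_num) (p w0) T h _ hb
  obtain ⟨b, hb', hB⟩ := ext_li (by norm_num) (p w0) T h _ hA
  obtain ⟨c, hc, hC⟩ := ext_li (by norm_num) (p w0) T h _ hB
  refine ⟨a, ha, b, hb', c, hc, ?_⟩
  have e : (Fin.snoc (Fin.snoc (Fin.snoc (Fin.snoc (![] : Fin 0 → V) (p w0 0) : Fin 1 → V) (p w0 a) :
      Fin 2 → V) (p w0 b) : Fin 3 → V) (p w0 c) : Fin 4 → V) =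
      ![p w0 0, p w0 a, p w0 b, p w0 c] := by
    funext i; fin_cases i <;> rfl
  rw [e] at hC
  have h1 := det_ne _ _ _ _ hC
  rw [ofV_p0, ofV_p0, ofV_p0, ofV_p0, dt_cast, pt_zero] at h1
  intro h2
  apply h1
  have h3 : dot (cr (sub (pt a) wZ) (sub (pt b) wZ) (sub (pt c) wZ)) wZ = 0 := h2
  rw [h3]; simp

theorem allT_get (f : Q4 ℤ → List (Q4 ℤ) → Bool) : ∀ (l : List (Q4 ℤ)), allT f l = true →
    ∀ (i : ℕ) (_ : i < l.length), f (l.getD i wZ) (l.drop (i + 1)) = true
  | [], _, i, hi => by simp at hi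
  | x :: t, h, 0, _ => by
      simp only [allT, Bool.and_eq_true] at h
      simpa using h.1
  | x :: t, h, i + 1, hi => by
      simp only [allT, Bool.and_eq_true] at h
      have := allT_get f t h.2 i (by simpa using hi)
      simpa using this

theorem pts_len : pts.length = 48 := by decide +kernel

theorem full_spec (i j k : ℕ) (hij : i < j) (hjk : j < k) (hk : k < 48) :
    test (cr (sub (pts.getD i wZ) wZ) (sub (pts.getD j wZ) wZ) (sub (pts.getD k wZ) wZ))
      (dot (cr (sub (pts.getD i wZ) wZ) (sub (pts.getD j wZ) wZ) (sub (pts.getD k wZ) wZ)) wZ)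
      = true := by
  have hl := pts_len
  have h1 := allT_get _ pts full_true i (by omega)
  have h2 := allT_get _ _ h1 (j - (i + 1)) (by simp; omega)
  rw [List.all_eq_true] at h2
  have e1 : (pts.drop (i + 1)).getD (j - (i + 1)) wZ = pts.getD j wZ := by
    rw [List.getD_eq_getElem?_getD, List.getD_eq_getElem?_getD, List.getElem?_drop]
    congr 3; omega
  have e2 : pts.getD k wZ ∈ (pts.drop (i + 1)).drop (j - (i + 1) + 1) := by
    rw [List.drop_drop, List.mem_iff_getElem?]
    refine ⟨k - (j + 1), ?_⟩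
    rw [List.getElem?_drop, List.getD_eq_getElem?_getD,
      show i + 1 + (j - (i + 1) + 1) + (k - (j + 1)) = k by omega,
      List.getElem?_eq_getElem (by omega)]
    simp
  have h3 := h2 _ e2
  rw [e1] at h3
  exact h3

theorem cramer (l E a b c P : Q4 ℝ) (hE : dot l E = 1) (ha : dot l a = 0) (hb : dot l b = 0)
    (hc : dot l c = 0) : dot (cr a b c) E * dot l P = dot (cr a b c) P := by
  have id : dot (cr a b c) E * dot l P = dot (cr a b c) P * dot l E + dot (cr P b c) E * dot l a +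
      dot (cr a P c) E * dot l b + dot (cr a b P) E * dot l c := by
    obtain ⟨l1, l2, l3, l4⟩ := l
    obtain ⟨e1, e2, e3, e4⟩ := E
    obtain ⟨a1, a2, a3, a4⟩ := a
    obtain ⟨b1, b2, b3, b4⟩ := b
    obtain ⟨c1, c2, c3, c4⟩ := c
    obtain ⟨p1, p2, p3, p4⟩ := P
    simp only [dot, cr]
    ring
  rw [id, hE, ha, hb, hc]
  ring

theorem dot_cast (A B : Q4 ℤ) : dot (cast4 A) (cast4 B) = ((dot A B : ℤ) : ℝ) := by
  simp only [dot, cast4]; push_cast; ring

theorem cr_cast (A B C : Q4 ℤ) : cr (cast4 A) (cast4 B) (cast4 C) = cast4 (cr A B C) := by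
  simp only [cr, cast4]; push_cast; rfl

theorem sub_cast (A B : Q4 ℤ) : sub (cast4 A) (cast4 B) = cast4 (sub A B) := by
  simp only [sub, cast4]; push_cast; rfl

theorem dot_sub (l A B : Q4 ℝ) : dot l (sub A B) = dot l A - dot l B := by
  simp only [dot, sub]; ring

theorem concl (T : Set I) (l : V) (hs : Supp (p w0) l) (hT : Con (p w0) l = T)
    (h0 : (0 : I) ∈ T) (a b c : I) (ha : a ∈ T) (hb : b ∈ T) (hc : c ∈ T) (hab : a < b)
    (hbc : b < c) (hD : Dt a b c ≠ 0) : ∃ L ∈ faces, T = {i | i ∈ L} := by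
  have hx : ∀ m : I, inner ℝ l (p w0 m) = dot (ofV l) (cast4 (pt m)) := fun m => by
    rw [inner_eq, ofV_p0]
  have hin : ∀ m ∈ T, dot (ofV l) (cast4 (pt m)) = 1 := by
    intro m hm
    rw [← hx]
    rw [← hT] at hm
    exact hm
  have hE : dot (ofV l) (cast4 wZ) = 1 := by rw [← pt_zero]; exact hin 0 h0
  set N := cr (sub (pt a) wZ) (sub (pt b) wZ) (sub (pt c) wZ) with hN
  have key : ∀ m : I, ((dot N wZ : ℤ) : ℝ) * inner ℝ l (p w0 m) = ((dot N (pt m) : ℤ) : ℝ) := by
    intro m
    rw [hx, ← dot_cast, ← dot_cast, hN, ← cr_cast, ← sub_cast, ← sub_cast, ← sub_cast]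
    exact cramer _ _ _ _ _ _ hE (by rw [dot_sub, hin a ha, hE]; ring)
      (by rw [dot_sub, hin b hb, hE]; ring) (by rw [dot_sub, hin c hc, hE]; ring)
  have hD' : dot N wZ ≠ 0 := hD
  have hDR : ((dot N wZ : ℤ) : ℝ) ≠ 0 := by exact_mod_cast hD'
  have ht := full_spec a.1 b.1 c.1 hab hbc c.2
  change test N (dot N wZ) = true at ht
  simp only [test, Bool.or_eq_true, beq_iff_eq, List.any_eq_true, decide_eq_true_eq,
    List.contains_iff_mem] at ht
  have hptmem : ∀ P ∈ pts, ∃ m : I, P = pt m := by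
    intro P hP
    obtain ⟨n, hn, rfl⟩ := List.mem_iff_getElem.1 hP
    have hl := pts_len
    refine ⟨⟨n, by omega⟩, ?_⟩
    simp [pt, List.getD_eq_getElem?_getD, hn]
  have hptin : ∀ m : I, pt m ∈ pts := by
    intro m
    have hl := pts_len
    have hm : m.1 < pts.length := by have := m.2; omega
    rw [pt, List.getD_eq_getElem?_getD, List.getElem?_eq_getElem hm]
    exact List.getElem_mem hm
  rcases ht with (h | ⟨P, hP, hpos⟩) | h
  · exact absurd h hD'
  · exfalso
    obtain ⟨m, rfl⟩ := hptmem P hP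
    have h1 := hs m
    have h2 := key m
    have h3 : (0 : ℝ) < ((dot N wZ : ℤ) : ℝ) * (((dot N (pt m) : ℤ) : ℝ) - ((dot N wZ : ℤ) : ℝ)) := by
      exact_mod_cast hpos
    rw [← h2] at h3
    have h4 : ((dot N wZ : ℤ) : ℝ) * (((dot N wZ : ℤ) : ℝ) * inner ℝ l (p w0 m) -
        ((dot N wZ : ℤ) : ℝ)) = ((dot N wZ : ℤ) : ℝ) ^ 2 * (inner ℝ l (p w0 m) - 1) := by ring
    rw [h4] at h3
    nlinarith [sq_nonneg ((dot N wZ : ℤ) : ℝ)]
  · simp only [fpts, List.mem_map] at h
    obtain ⟨L, hL, hLe⟩ := h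
    refine ⟨L, hL, ?_⟩
    ext m
    rw [← hT]
    simp only [Con, mem_setOf_eq]
    have e1 : inner ℝ l (p w0 m) = 1 ↔ dot N (pt m) = dot N wZ := by
      constructor
      · intro h1
        have h2 := key m
        rw [h1, mul_one] at h2
        exact_mod_cast h2.symm
      · intro h1
        have h2 := key m
        rw [h1] at h2
        exact mul_left_cancel₀ hDR (by rw [h2, mul_one])
    have e2 : dot N (pt m) = dot N wZ ↔ pt m ∈ pts.filter (fun P => dot N P == dot N wZ) := by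
      simp [List.mem_filter, hptin]
    rw [e1, e2, ← hLe, List.mem_map]
    constructor
    · rintro ⟨i, hi, hie⟩
      have : i = m := pt_inj hie
      rwa [← this]
    · intro hm
      exact ⟨m, hm, rfl⟩

/-- CERT. -/
theorem t_CERT : S_CERT := by
  rintro T ⟨l, hs, hT, hu⟩ h0
  have h : ∀ l' : V, (∀ i ∈ T, inner ℝ l' (p w0 i) = 0) → l' = 0 := by
    intro l' hl'
    have h1 := hu (l + l') fun i hi => by
      rw [inner_add_left, hl' i hi, add_zero]
      rw [← hT] at hi
      exact hi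
    simpa using h1
  obtain ⟨a, ha, b, hb, c, hc, hD⟩ := exists_tri T h0 h
  have n1 : a ≠ b := by
    rintro rfl
    have := Dt_swap1 a a c
    omega
  have n2 : b ≠ c := by
    rintro rfl
    have := Dt_swap2 a b b
    omega
  have n3 : a ≠ c := by
    rintro rfl
    have h1 := Dt_swap1 a b a
    have h2 := Dt_swap2 b a a
    omega
  have s1 := Dt_swap1 a b c
  have s2 := Dt_swap2 a b c
  have s3 := Dt_swap1 a c b
  have s4 := Dt_swap2 b a c
  have s5 := Dt_swap1 b c a
  have key := concl T l hs hT h0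
  rcases lt_trichotomy a b with h1 | h1 | h1
  · rcases lt_trichotomy b c with h2 | h2 | h2
    · exact key a b c ha hb hc h1 h2 hD
    · exact absurd h2 n2
    · rcases lt_trichotomy a c with h3 | h3 | h3
      · exact key a c b ha hc hb h3 h2 (by omega)
      · exact absurd h3 n3
      · exact key c a b hc ha hb h3 h1 (by omega)
  · exact absurd h1 n1
  · rcases lt_trichotomy b c with h2 | h2 | h2
    · rcases lt_trichotomy a c with h3 | h3 | h3
      · exact key b a c hb ha hc h1 h3 (by omega)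
      · exact absurd h3 n3
      · exact key b c a hb hc ha h2 h3 (by omega)
    · exact absurd h2 n2
    · exact key c b a hc hb ha h2 h1 (by omega)

end Q196.OP
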