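import Pool.Agent.Q196.OP.Def

set_option autoImplicit false

namespace Q196.OP

/-- Scalar product. -/
def dot {R : Type} [Mul R] [Add R] (u v : Q4 R) : R := u.x * v.x + u.y * v.y + u.z * v.z + u.t * v.t

/-- Difference. -/
def sub {R : Type} [Sub R] (u v : Q4 R) : Q4 R := ⟨u.x - v.x, u.y - v.y, u.z - v.z, u.t - v.t⟩

/-- The vector `N` with `N · x = det (x, a, b, c)`. -/
def cr {R : Type} [Mul R] [Sub R] [Add R] [Neg R] (a b c : Q4 R) : Q4 R :=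
  ⟨c.t * (a.y * b.z - a.z * b.y) - c.z * (a.y * b.t - a.t * b.y) + c.y * (a.z * b.t - a.t * b.z),
   -(c.t * (a.x * b.z - a.z * b.x) - c.z * (a.x * b.t - a.t * b.x) + c.x * (a.z * b.t - a.t * b.z)),
   c.t * (a.x * b.y - a.y * b.x) - c.y * (a.x * b.t - a.t * b.x) + c.x * (a.y * b.t - a.t * b.y),
   -(c.z * (a.x * b.y - a.y * b.x) - c.y * (a.x * b.z - a.z * b.x) + c.x * (a.y * b.z - a.z * b.y))⟩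

/-- The special point, with integer entries. -/
def wZ : Q4 ℤ := ⟨3, 5, 0, -1⟩

/-- The 48 points of the orbit of `w0`. -/
def pts : List (Q4 ℤ) :=
  [⟨3, 5, 0, -1⟩, ⟨3, 0, -1, 5⟩, ⟨3, -1, 5, 0⟩, ⟨3, -5, 1, 0⟩, ⟨3, 0, -5, 1⟩, ⟨3, 1, 0, -5⟩,
   ⟨5, 3, 0, 1⟩, ⟨5, 0, 1, 3⟩, ⟨5, -1, 0, -3⟩, ⟨5, -3, -1, 0⟩, ⟨5, 0, -3, -1⟩, ⟨5, 1, 3, 0⟩,
   ⟨0, 3, -1, -5⟩, ⟨0, 5, 1, -3⟩, ⟨0, -1, -5, 3⟩, ⟨0, -3, 5, 1⟩, ⟨0, -5, 3, -1⟩, ⟨0, 1, -3, 5⟩,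
   ⟨-1, 3, 5, 0⟩, ⟨-1, 5, 0, 3⟩, ⟨-1, 0, -5, -3⟩, ⟨-1, -3, 0, -5⟩, ⟨-1, -5, -3, 0⟩, ⟨-1, 0, 3, 5⟩,
   ⟨-3, 5, -1, 0⟩, ⟨-3, 0, 5, -1⟩, ⟨-3, -1, 0, 5⟩, ⟨-3, -5, 0, 1⟩, ⟨-3, 0, 1, -5⟩, ⟨-3, 1, -5, 0⟩,
   ⟨-5, 3, 1, 0⟩, ⟨-5, 0, 3, 1⟩, ⟨-5, -1, -3, 0⟩, ⟨-5, -3, 0, -1⟩, ⟨-5, 0, -1, -3⟩, ⟨-5, 1, 0, 3⟩,
   ⟨0, 3, -5, -1⟩, ⟨0, 5, -3, 1⟩, ⟨0, -1, 3, -5⟩, ⟨0, -3, 1, 5⟩, ⟨0, -5, -1, 3⟩, ⟨0, 1, 5, -3⟩,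
   ⟨1, 3, 0, 5⟩, ⟨1, 5, 3, 0⟩, ⟨1, 0, -3, -5⟩, ⟨1, -3, -5, 0⟩, ⟨1, -5, 0, -3⟩, ⟨1, 0, 5, 3⟩]

theorem pts_eq : pts = codes.map fun c => act c wZ := by decide +kernel

/-- The facets as lists of points. -/
def fpts : List (List (Q4 ℤ)) := faces.map fun L => L.map fun i => pts.getD i.1 wZ

/-- Test of a triple of points. -/
def test (N : Q4 ℤ) (D : ℤ) : Bool :=
  D == 0 || pts.any (fun P => decide (0 < D * (dot N P - D))) ||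
    fpts.contains (pts.filter fun P => dot N P == D)

/-- All (element, tail) pairs. -/
def allT (f : Q4 ℤ → List (Q4 ℤ) → Bool) : List (Q4 ℤ) → Bool
  | [] => true
  | x :: t => f x t && allT f t

/-- The full test. -/
def full : Bool := allT (fun A t => allT (fun B t' => t'.all fun C =>
  test (cr (sub A wZ) (sub B wZ) (sub C wZ)) (dot (cr (sub A wZ) (sub B wZ) (sub C wZ)) wZ)) t) pts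

theorem full_true : full = true := by decide +kernel

end Q196.OP
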