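import Mathlib

/-!
# Orbit polytopes (project OP, MP_7b675e_co): definitions

The group is a group of 48 signed permutation matrices in dimension 4 (isomorphic to `GL(2,3)`), its
elements are coded by the list `codes`; `p w i` is the image of `w` under the `i`-th element.
-/

set_option autoImplicit false

namespace Q196.OP

open Set Metric Topology

/-- Euclidean space of dimension four. -/
abbrev V := EuclideanSpace ℝ (Fin 4)

/-- The index type of the group elements. -/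
abbrev I := Fin 48

/-! ## Abstract part: contact sets of a finite family of points -/

/-- `l` is at most one on all points. -/
def Supp (p : I → V) (l : V) : Prop := ∀ i, inner ℝ l (p i) ≤ 1

/-- The contact set. -/
def Con (p : I → V) (l : V) : Set I := {i | inner ℝ l (p i) = 1}

/-- `S` is a contact set. -/
def IsCon (p : I → V) (S : Set I) : Prop := ∃ l, Supp p l ∧ Con p l = S

/-- `S` is the contact set of a facet: the functional is determined by `S`. -/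
def IsFac (p : I → V) (S : Set I) : Prop :=
  ∃ l, Supp p l ∧ Con p l = S ∧ ∀ l', (∀ i ∈ S, inner ℝ l' (p i) = 1) → l' = l

/-- The family is centrally symmetric and spans the space. -/
def Good (p : I → V) : Prop := (∀ i, ∃ j, p j = - p i) ∧ ∀ l : V, (∀ i, inner ℝ l (p i) = 0) → l = 0

/-- The polytope spanned by the family. -/
def Q (p : I → V) : Set V := convexHull ℝ (range p)

/-- The face lattice in terms of index sets. -/
abbrev Fa (p : I → V) : Type := {S : Set I // IsCon p S ∨ S = univ}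

/-- The same combinatorial type: isomorphic face lattices. -/
def SameType (P P' : Set V) : Prop :=
  Nonempty ({F : Set V // IsExposed ℝ P F} ≃o {F : Set V // IsExposed ℝ P' F})

/-- Smooth (here: continuously differentiable) embedded submanifolds, by slice charts. -/
def IsSubmanifold (M : Set V) : Prop :=
  ∀ x ∈ M, ∃ (φ : OpenPartialHomeomorph V V) (F : Submodule ℝ V), x ∈ φ.source ∧
    ContDiffOn ℝ 1 φ φ.source ∧ ContDiffOn ℝ 1 φ.symm φ.target ∧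
    φ '' (M ∩ φ.source) = (F : Set V) ∩ φ.target

/-! ## Concrete part: the group -/

/-- Four entries. -/
structure Q4 (R : Type) where
  /-- first entry -/
  x : R
  /-- second entry -/
  y : R
  /-- third entry -/
  z : R
  /-- fourth entry -/
  t : R
  deriving DecidableEq

/-- The signed entry with code `n`: codes 0,1,2,3 are the entries, 4,5,6,7 their negatives. -/
def sel {R : Type} [Neg R] (v : Q4 R) : ℕ → R
  | 0 => v.x
  | 1 => v.y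
  | 2 => v.z
  | 3 => v.t
  | 4 => -v.x
  | 5 => -v.y
  | 6 => -v.z
  | _ => -v.t

/-- The signed permutation with code `c`. -/
def act {R : Type} [Neg R] (c : Q4 ℕ) (v : Q4 R) : Q4 R :=
  ⟨sel v c.x, sel v c.y, sel v c.z, sel v c.t⟩

/-- The codes of the 48 group elements; number 0 is the identity, number 27 is minus the identity. -/
def codes : List (Q4 ℕ) :=
  [⟨0, 1, 2, 3⟩, ⟨0, 2, 3, 1⟩, ⟨0, 3, 1, 2⟩, ⟨0, 5, 7, 6⟩, ⟨0, 6, 5, 7⟩, ⟨0, 7, 6, 5⟩,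
   ⟨1, 0, 2, 7⟩, ⟨1, 2, 7, 0⟩, ⟨1, 3, 6, 4⟩, ⟨1, 4, 3, 6⟩, ⟨1, 6, 4, 3⟩, ⟨1, 7, 0, 2⟩,
   ⟨2, 0, 3, 5⟩, ⟨2, 1, 7, 4⟩, ⟨2, 3, 5, 0⟩, ⟨2, 4, 1, 7⟩, ⟨2, 5, 0, 3⟩, ⟨2, 7, 4, 1⟩,
   ⟨3, 0, 1, 6⟩, ⟨3, 1, 6, 0⟩, ⟨3, 2, 5, 4⟩, ⟨3, 4, 2, 5⟩, ⟨3, 5, 4, 2⟩, ⟨3, 6, 0, 1⟩,
   ⟨4, 1, 3, 2⟩, ⟨4, 2, 1, 3⟩, ⟨4, 3, 2, 1⟩, ⟨4, 5, 6, 7⟩, ⟨4, 6, 7, 5⟩, ⟨4, 7, 5, 6⟩,
   ⟨5, 0, 7, 2⟩, ⟨5, 2, 0, 7⟩, ⟨5, 3, 4, 6⟩, ⟨5, 4, 6, 3⟩, ⟨5, 6, 3, 4⟩, ⟨5, 7, 2, 0⟩,
   ⟨6, 0, 5, 3⟩, ⟨6, 1, 4, 7⟩, ⟨6, 3, 0, 5⟩, ⟨6, 4, 7, 1⟩, ⟨6, 5, 3, 0⟩, ⟨6, 7, 1, 4⟩,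
   ⟨7, 0, 6, 1⟩, ⟨7, 1, 0, 6⟩, ⟨7, 2, 4, 5⟩, ⟨7, 4, 5, 2⟩, ⟨7, 5, 2, 4⟩, ⟨7, 6, 1, 0⟩]

/-- The code of the `i`-th group element. -/
def cd (i : I) : Q4 ℕ := codes.getD i.1 ⟨0, 1, 2, 3⟩

/-- Vectors from four entries. -/
def toV (v : Q4 ℝ) : V := !₂[v.x, v.y, v.z, v.t]

/-- The four entries of a vector. -/
def ofV (w : V) : Q4 ℝ := ⟨w 0, w 1, w 2, w 3⟩

/-- The orbit of `w`. -/
noncomputable def p (w : V) (i : I) : V := toV (act (cd i) (ofV w))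

/-- The special point. -/
noncomputable def w0 : V := !₂[3, 5, 0, -1]

/-- The product of the two linear forms whose zero set is the class near `w0`. -/
def cross (w : V) : ℝ := w 2 * (w 0 - w 1 - 2 * w 3)

/-- The eleven facets at `w0` which contain the point number 0. -/
def faces : List (List I) :=
  [[0, 5, 12, 13], [0, 6, 11, 43], [0, 5, 6, 8, 10], [0, 5, 6, 8, 11], [0, 6, 19, 37, 42],
   [0, 6, 19, 42, 43], [0, 12, 13, 36, 37], [0, 4, 6, 10, 36, 37], [0, 5, 10, 12, 36, 44],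
   [0, 5, 11, 13, 41, 43], [0, 13, 19, 24, 37, 43]]

end Q196.OP
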