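import Pool.Agent.Q196.OP.Stm

set_option autoImplicit false

namespace Q196.OP

open Set Metric Topology Filter

/-- Moving a supporting functional until a new contact appears. -/
theorem step {p : I → V} {l m : V} (hs : Supp p l) (hm : ∀ j ∈ Con p l, inner ℝ m (p j) = 0)
    (hex : ∃ j, 0 < inner ℝ m (p j)) :
    ∃ t : ℝ, 0 < t ∧ Supp p (l + t • m) ∧ Con p l ⊂ Con p (l + t • m) := by
  classical
  set A : Finset I := Finset.univ.filter fun j => 0 < inner ℝ m (p j) with hA
  have hAn : A.Nonempty := by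
    obtain ⟨j, hj⟩ := hex
    exact ⟨j, by simp [hA, hj]⟩
  obtain ⟨j0, hj0, hmin⟩ := A.exists_min_image (fun j => (1 - inner ℝ l (p j)) / inner ℝ m (p j)) hAn
  have hj0' : 0 < inner ℝ m (p j0) := by simpa [hA] using hj0
  have hlt : inner ℝ l (p j0) < 1 := by
    refine lt_of_le_of_ne (hs j0) fun h => ?_
    have := hm j0 h
    linarith
  set t := (1 - inner ℝ l (p j0)) / inner ℝ m (p j0) with ht
  have htpos : 0 < t := div_pos (by linarith) hj0'
  have hval : ∀ j, inner ℝ (l + t • m) (p j) = inner ℝ l (p j) + t * inner ℝ m (p j) := by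
    intro j
    rw [inner_add_left, real_inner_smul_left]
  refine ⟨t, htpos, fun j => ?_, ?_, ?_⟩
  · rw [hval]
    by_cases hj : 0 < inner ℝ m (p j)
    · have h1 := hmin j (by simp [hA, hj])
      change t ≤ _ at h1
      rw [le_div_iff₀ hj] at h1
      linarith
    · have h1 := hs j
      push Not at hj
      nlinarith
  · intro j hj
    change inner ℝ (l + t • m) (p j) = 1
    rw [hval, hm j hj, mul_zero, add_zero]
    exact hj
  · intro h
    have h1 : j0 ∈ Con p (l + t • m) := by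
      change inner ℝ (l + t • m) (p j0) = 1
      rw [hval, ht, div_mul_cancel₀ _ hj0'.ne']
      ring
    have h2 : inner ℝ l (p j0) = 1 := h h1
    linarith

/-- FAC. -/
theorem t_FAC : S_FAC := by
  intro p hg S i hS hi
  classical
  set C : Set (Set I) := {T | IsCon p T ∧ S ⊆ T ∧ i ∉ T} with hC
  have hCn : C.Nonempty := ⟨S, hS, subset_rfl, hi⟩
  obtain ⟨T, hT⟩ := (toFinite C).exists_maximal hCn
  obtain ⟨⟨⟨l, hs, hl⟩, hST, hiT⟩, hmax⟩ := hT
  refine ⟨T, ⟨l, hs, hl, ?_⟩, hST, hiT⟩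
  by_contra hcon
  push Not at hcon
  obtain ⟨l', hl', hne⟩ := hcon
  set m := l' - l with hm
  have hm0 : m ≠ 0 := sub_ne_zero.2 hne
  have hmT : ∀ j ∈ Con p l, inner ℝ m (p j) = 0 := by
    intro j hj
    have h1 : inner ℝ l (p j) = 1 := hj
    rw [hl] at hj
    rw [hm, inner_sub_left, hl' j hj, h1, sub_self]
  have hex : ∃ j, inner ℝ m (p j) ≠ 0 := by
    by_contra h
    push Not at h
    exact hm0 (hg.2 m h)
  have hex1 : ∃ j, 0 < inner ℝ m (p j) := by
    obtain ⟨j, hj⟩ := hex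
    rcases lt_or_gt_of_ne hj with h | h
    · obtain ⟨k, hk⟩ := hg.1 j
      refine ⟨k, ?_⟩
      rw [hk, inner_neg_right]
      linarith
    · exact ⟨j, h⟩
  have hex2 : ∃ j, 0 < inner ℝ (-m) (p j) := by
    obtain ⟨j, hj⟩ := hex1
    obtain ⟨k, hk⟩ := hg.1 j
    refine ⟨k, ?_⟩
    rw [hk, inner_neg_right, inner_neg_left]
    linarith
  obtain ⟨t1, ht1, hs1, hc1⟩ := step hs hmT hex1
  obtain ⟨t2, ht2, hs2, hc2⟩ := step (m := -m) hs (fun j hj => by
    rw [inner_neg_left, hmT j hj, neg_zero]) hex2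
  have hmem : ∀ T', IsCon p T' → T ⊂ T' → i ∈ T' := by
    intro T' h1 h2
    by_contra h3
    exact h2.2 (hmax (show T' ∈ C from ⟨h1, hST.trans h2.1, h3⟩) h2.1)
  have i1 : inner ℝ (l + t1 • m) (p i) = 1 := hmem _ ⟨_, hs1, rfl⟩ (by rw [← hl]; exact hc1)
  have i2 : inner ℝ (l + t2 • (-m)) (p i) = 1 := hmem _ ⟨_, hs2, rfl⟩ (by rw [← hl]; exact hc2)
  rw [inner_add_left, real_inner_smul_left] at i1
  rw [inner_add_left, real_inner_smul_left, inner_neg_left] at i2
  have h3 : (t1 + t2) * inner ℝ m (p i) = 0 := by linarith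
  rcases mul_eq_zero.1 h3 with h4 | h4
  · linarith
  · rw [h4, mul_zero, add_zero] at i1
    apply hiT
    rw [← hl]
    exact i1

theorem con_inter {p : I → V} {S1 S2 : Set I} (h1 : IsCon p S1) (h2 : IsCon p S2) :
    IsCon p (S1 ∩ S2) := by
  obtain ⟨l1, hs1, rfl⟩ := h1
  obtain ⟨l2, hs2, rfl⟩ := h2
  have hv : ∀ j, inner ℝ ((1 / 2 : ℝ) • l1 + (1 / 2 : ℝ) • l2) (p j) =
      (1 / 2) * inner ℝ l1 (p j) + (1 / 2) * inner ℝ l2 (p j) := by
    intro j
    rw [inner_add_left, real_inner_smul_left, real_inner_smul_left]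
  refine ⟨(1 / 2 : ℝ) • l1 + (1 / 2 : ℝ) • l2, fun j => ?_, ?_⟩
  · rw [hv]
    have := hs1 j
    have := hs2 j
    linarith
  · ext j
    simp only [Con, mem_setOf_eq, mem_inter_iff]
    rw [hv]
    have := hs1 j
    have := hs2 j
    constructor
    · intro h
      constructor <;> linarith
    · rintro ⟨h3, h4⟩
      linarith

theorem con_sInter {p : I → V} (C : Set (Set I)) (hne : C.Nonempty) (h : ∀ T ∈ C, IsCon p T) :
    IsCon p (⋂₀ C) := by
  have key : ∀ D : Set (Set I), D.Finite → D.Nonempty → (∀ T ∈ D, IsCon p T) → IsCon p (⋂₀ D) := by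
    intro D hD
    induction D, hD using Set.Finite.induction_on with
    | empty => intro h0; exact absurd h0 not_nonempty_empty
    | @insert a s _ _ ih =>
      intro _ h1
      by_cases hs : s.Nonempty
      · rw [sInter_insert]
        exact con_inter (h1 a (mem_insert _ _)) (ih hs fun T hT => h1 T (mem_insert_of_mem _ hT))
      · rw [not_nonempty_iff_eq_empty] at hs
        rw [hs]
        simpa using h1 a (mem_insert _ _)
  exact key C (toFinite C) hne h

theorem exists_not_mem {p : I → V} (hg : Good p) {S : Set I} (hS : IsCon p S) : ∃ i, i ∉ S := by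
  obtain ⟨l, hs, rfl⟩ := hS
  by_contra h
  push Not at h
  obtain ⟨j, hj⟩ := hg.1 0
  have h1 : inner ℝ l (p 0) = 1 := h 0
  have h2 : inner ℝ l (p j) = 1 := h j
  rw [hj, inner_neg_right, h1] at h2
  norm_num at h2

theorem IsFac.isCon {p : I → V} {T : Set I} (h : IsFac p T) : IsCon p T := by
  obtain ⟨l, h1, h2, _⟩ := h
  exact ⟨l, h1, h2⟩

/-- LAT. -/
theorem t_LAT : S_LAT := by
  have key : ∀ p p' : I → V, Good p → Good p' → (∀ T, IsFac p T ↔ IsFac p' T) →
      ∀ S, IsCon p S → IsCon p' S := by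
    intro p p' hg hg' hf S hS
    obtain ⟨i, hi⟩ := exists_not_mem hg hS
    obtain ⟨T0, hT0, hST0, _⟩ := t_FAC p hg S i hS hi
    have e : S = ⋂₀ {T | IsFac p T ∧ S ⊆ T} := by
      apply subset_antisymm
      · exact subset_sInter fun T hT => hT.2
      · intro j hj
        by_contra hjS
        obtain ⟨T, hT, hST, hjT⟩ := t_FAC p hg S j hS hjS
        exact hjT (mem_sInter.1 hj T ⟨hT, hST⟩)
    rw [e]
    refine con_sInter _ ⟨T0, hT0, hST0⟩ fun T hT => ?_
    exact ((hf T).1 hT.1).isCon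
  intro p p' hg hg' hf S
  exact ⟨key p p' hg hg' hf S, key p' p hg' hg (fun T => (hf T).symm) S⟩

end Q196.OP
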