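import Pool.Agent.Q196.OP.Near

set_option autoImplicit false

namespace Q196.OP

open Set Metric Topology Filter

theorem norm_sq_eq (w : V) : ‖w‖ ^ 2 = w 0 ^ 2 + w 1 ^ 2 + w 2 ^ 2 + w 3 ^ 2 := by
  rw [EuclideanSpace.norm_sq_eq, Fin.sum_univ_four]
  simp [sq_abs]

theorem four_sq (l w : V) : inner ℝ l (p w 0) ^ 2 + inner ℝ l (p w 47) ^ 2 + inner ℝ l (p w 38) ^ 2 +
    inner ℝ l (p w 30) ^ 2 = ‖l‖ ^ 2 * ‖w‖ ^ 2 := by
  rw [norm_sq_eq, norm_sq_eq, inner_eq, inner_eq, inner_eq, inner_eq, ofV_p, ofV_p, ofV_p, ofV_p]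
  simp [cd, codes, act, sel, dot, ofV]
  ring

theorem anti (i : I) : ∃ j : I, ∀ v : Q4 ℝ, act (cd j) v = ⟨-(act (cd i) v).x, -(act (cd i) v).y,
    -(act (cd i) v).z, -(act (cd i) v).t⟩ := by
  have h : ∀ i : I, ∃ j : I, cd j = ⟨((cd i).x + 4) % 8, ((cd i).y + 4) % 8, ((cd i).z + 4) % 8,
      ((cd i).t + 4) % 8⟩ ∧ (cd i).x < 8 ∧ (cd i).y < 8 ∧ (cd i).z < 8 ∧ (cd i).t < 8 := by
    decide +kernel
  obtain ⟨j, hj, h1, h2, h3, h4⟩ := h i
  refine ⟨j, fun v => ?_⟩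
  have hs : ∀ n : ℕ, n < 8 → sel v ((n + 4) % 8) = - sel v n := by
    intro n hn
    interval_cases n <;> simp [sel]
  rw [hj]
  simp only [act, hs _ h1, hs _ h2, hs _ h3, hs _ h4]

theorem p_anti (i : I) : ∃ j : I, ∀ w, p w j = - p w i := by
  obtain ⟨j, hj⟩ := anti i
  refine ⟨j, fun w => ?_⟩
  ext k
  simp only [p, hj, toV]
  fin_cases k <;> simp

/-- GOOD. -/
theorem t_GOOD : S_GOOD := by
  intro w
  refine ⟨fun hw => ⟨fun i => ?_, fun l hl => ?_⟩, fun l hl => ?_⟩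
  · obtain ⟨j, hj⟩ := p_anti i
    exact ⟨j, hj w⟩
  · have h := four_sq l w
    rw [hl, hl, hl, hl] at h
    have h1 : ‖l‖ ^ 2 * ‖w‖ ^ 2 = 0 := by rw [← h]; ring
    rcases mul_eq_zero.1 h1 with h2 | h2
    · exact norm_eq_zero.1 (pow_eq_zero_iff (two_ne_zero) |>.1 h2)
    · exact absurd (norm_eq_zero.1 (pow_eq_zero_iff (two_ne_zero) |>.1 h2)) hw
  · have h := four_sq l w
    have hb : ∀ i, inner ℝ l (p w i) ^ 2 ≤ 1 := by
      intro i
      obtain ⟨j, hj⟩ := p_anti i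
      have h1 := hl i
      have h2 := hl j
      rw [hj w, inner_neg_right] at h2
      rw [sq_le_one_iff_abs_le_one, abs_le]
      constructor <;> linarith
    have h4 : (‖l‖ * ‖w‖) ^ 2 ≤ 2 ^ 2 := by
      have := hb 0; have := hb 47; have := hb 38; have := hb 30
      nlinarith
    exact (sq_le_sq₀ (by positivity) (by norm_num)).1 h4

theorem norm_p (w : V) (i : I) : ‖p w i‖ = ‖w‖ := by
  have h : ∀ i : I, [(cd i).x % 4, (cd i).y % 4, (cd i).z % 4, (cd i).t % 4].Perm [0, 1, 2, 3] ∧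
      (cd i).x < 8 ∧ (cd i).y < 8 ∧ (cd i).z < 8 ∧ (cd i).t < 8 := by decide +kernel
  obtain ⟨hp, h1, h2, h3, h4⟩ := h i
  have e1 : ‖p w i‖ ^ 2 = ‖w‖ ^ 2 := by
    rw [norm_sq_eq, norm_sq_eq]
    have hs : ∀ n : ℕ, n < 8 → sel (ofV w) n ^ 2 = sel (ofV w) (n % 4) ^ 2 := by
      intro n hn
      interval_cases n <;> simp [sel]
    have e : (p w i 0) ^ 2 + (p w i 1) ^ 2 + (p w i 2) ^ 2 + (p w i 3) ^ 2 =
        ([(cd i).x % 4, (cd i).y % 4, (cd i).z % 4, (cd i).t % 4].map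
          fun n => sel (ofV w) n ^ 2).sum := by
      simp only [List.map_cons, List.map_nil, List.sum_cons, List.sum_nil, ← hs _ h1, ← hs _ h2,
        ← hs _ h3, ← hs _ h4]
      simp [p, toV, act]
      ring
    rw [e, (hp.map _).sum_eq]
    simp [sel, ofV]
    ring
  exact (sq_eq_sq₀ (norm_nonneg _) (norm_nonneg _)).1 e1

end Q196.OP
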