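import Pool.Agent.Q196.OP.Usc

set_option autoImplicit false

namespace Q196.OP

open Set Metric Topology Filter

/-- Entry of a code, composed with a sign. -/
def selN (d : Q4 ℕ) (n : ℕ) : ℕ :=
  match n with
  | 0 => d.x
  | 1 => d.y
  | 2 => d.z
  | 3 => d.t
  | 4 => (d.x + 4) % 8
  | 5 => (d.y + 4) % 8
  | 6 => (d.z + 4) % 8
  | _ => (d.t + 4) % 8

/-- Composition of codes. -/
def comp (c d : Q4 ℕ) : Q4 ℕ := ⟨selN d c.x, selN d c.y, selN d c.z, selN d c.t⟩

theorem sel_neg {v : Q4 ℝ} (n : ℕ) (hn : n < 8) : sel v ((n + 4) % 8) = - sel v n := by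
  interval_cases n <;> simp [sel]

theorem sel_comp (v : Q4 ℝ) (d : Q4 ℕ) (h1 : d.x < 8) (h2 : d.y < 8) (h3 : d.z < 8) (h4 : d.t < 8)
    (n : ℕ) (hn : n < 8) : sel (act d v) n = sel v (selN d n) := by
  interval_cases n
  · rfl
  · rfl
  · rfl
  · rfl
  · change -(sel v d.x) = sel v ((d.x + 4) % 8)
    rw [sel_neg _ h1]
  · change -(sel v d.y) = sel v ((d.y + 4) % 8)
    rw [sel_neg _ h2]
  · change -(sel v d.z) = sel v ((d.z + 4) % 8)
    rw [sel_neg _ h3]
  · change -(sel v d.t) = sel v ((d.t + 4) % 8)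
    rw [sel_neg _ h4]

theorem cd_lt (i : I) : (cd i).x < 8 ∧ (cd i).y < 8 ∧ (cd i).z < 8 ∧ (cd i).t < 8 := by
  revert i; decide +kernel

theorem act_comp (i j : I) (v : Q4 ℝ) :
    act (cd i) (act (cd j) v) = act (comp (cd i) (cd j)) v := by
  obtain ⟨h1, h2, h3, h4⟩ := cd_lt j
  obtain ⟨g1, g2, g3, g4⟩ := cd_lt i
  change (⟨sel (act (cd j) v) (cd i).x, sel (act (cd j) v) (cd i).y, sel (act (cd j) v) (cd i).z,
    sel (act (cd j) v) (cd i).t⟩ : Q4 ℝ) = _
  rw [sel_comp v _ h1 h2 h3 h4 _ g1, sel_comp v _ h1 h2 h3 h4 _ g2, sel_comp v _ h1 h2 h3 h4 _ g3,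
    sel_comp v _ h1 h2 h3 h4 _ g4]
  rfl

/-- The multiplication table. -/
theorem mul_tab : ∀ i j : I, ∃ k : I, cd k = comp (cd i) (cd j) := by decide +kernel

theorem inv_tab : ∀ i : I, ∃ j : I, comp (cd i) (cd j) = cd 0 ∧ comp (cd j) (cd i) = cd 0 := by
  decide +kernel

theorem cd_inj : Function.Injective cd := by
  have h : ∀ i j : I, cd i = cd j → i = j := by decide +kernel
  exact fun i j hij => h i j hij

theorem p_comp {i j k : I} (h : cd k = comp (cd i) (cd j)) (w : V) : p w k = p (p w j) i := by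
  have h1 : ofV (p w k) = ofV (p (p w j) i) := by
    rw [ofV_p, ofV_p, ofV_p, act_comp, h]
  simp only [ofV, Q4.mk.injEq] at h1
  obtain ⟨a1, a2, a3, a4⟩ := h1
  ext n
  fin_cases n
  · exact a1
  · exact a2
  · exact a3
  · exact a4

theorem p_id {i : I} (h : cd i = cd 0) (w : V) : p w i = w := by
  rw [cd_inj h, p_zero]

/-- The group elements as isometries. -/
theorem exists_iso (i : I) : ∃ U : V ≃ₗᵢ[ℝ] V, ∀ w, U w = p w i := by
  obtain ⟨j, h1, h2⟩ := inv_tab i
  have hlin : ∀ n : ℕ, (∀ u v : V, sel (ofV (u + v)) n = sel (ofV u) n + sel (ofV v) n) ∧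
      ∀ (c : ℝ) (u : V), sel (ofV (c • u)) n = c * sel (ofV u) n := by
    intro n
    refine ⟨fun u v => ?_, fun c u => ?_⟩
    · unfold sel ofV
      split <;> simp <;> ring
    · unfold sel ofV
      split <;> simp
  let f : V →ₗ[ℝ] V :=
    { toFun := fun w => p w i
      map_add' := fun u v => by
        ext k
        simp only [p, toV, act]
        fin_cases k
        · exact (hlin _).1 u v
        · exact (hlin _).1 u v
        · exact (hlin _).1 u v
        · exact (hlin _).1 u v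
      map_smul' := fun c u => by
        ext k
        simp only [p, toV, act]
        fin_cases k
        · exact (hlin _).2 c u
        · exact (hlin _).2 c u
        · exact (hlin _).2 c u
        · exact (hlin _).2 c u }
  let g : V →ₗᵢ[ℝ] V := ⟨f, fun w => norm_p w i⟩
  refine ⟨g.toLinearIsometryEquiv rfl, fun w => rfl⟩

/-- GRP. -/
theorem t_GRP : S_GRP := by
  choose U hU using exists_iso
  refine ⟨⟨{ carrier := {g | ∃ i : I, ∀ w, g w = p w i}
             mul_mem' := ?_
             one_mem' := ⟨0, fun w => (p_zero w).symm⟩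
             inv_mem' := ?_ }, ?_, ?_⟩, ?_⟩
  · rintro a b ⟨i, hi⟩ ⟨j, hj⟩
    obtain ⟨k, hk⟩ := mul_tab i j
    refine ⟨k, fun w => ?_⟩
    change a (b w) = _
    rw [hj, hi, p_comp hk]
  · rintro a ⟨i, hi⟩
    obtain ⟨j, h1, h2⟩ := inv_tab i
    refine ⟨j, fun w => ?_⟩
    have h3 : a (p w j) = w := by
      rw [hi, ← p_comp (k := 0) h1.symm, p_zero]
    change a.symm w = _
    rw [LinearIsometryEquiv.symm_apply_eq, h3]
  · refine (finite_range U).subset ?_
    rintro g ⟨i, hi⟩
    refine ⟨i, ?_⟩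
    ext1 w
    rw [hU, hi]
  · intro w
    ext x
    constructor
    · rintro ⟨g, ⟨i, hi⟩, rfl⟩
      exact ⟨i, (hi w).symm⟩
    · rintro ⟨i, rfl⟩
      exact ⟨U i, ⟨i, hU i⟩, hU i w⟩
  · intro i
    choose τ hτ using mul_tab i
    have hinj : Function.Injective τ := by
      intro j k hjk
      obtain ⟨m, h1, h2⟩ := inv_tab i
      have h3 : ∀ w, p w (τ j) = p (p w j) i := fun w => p_comp (hτ j) w
      have h4 : ∀ w, p w (τ k) = p (p w k) i := fun w => p_comp (hτ k) w
      have h5 : ∀ w, p w j = p w k := by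
        intro w
        have h6 : p (p w j) i = p (p w k) i := by rw [← h3, ← h4, hjk]
        rw [← hU i (p w j), ← hU i (p w k)] at h6
        exact (U i).injective h6
      have h7 := h5 w0
      have h8 : cast4 (pt j) = cast4 (pt k) := by rw [← ofV_p0, ← ofV_p0, h7]
      apply pt_inj
      simp only [cast4, Q4.mk.injEq] at h8
      obtain ⟨a1, a2, a3, a4⟩ := h8
      rcases hi : pt j with ⟨x, y, z, t⟩
      rcases hj : pt k with ⟨x', y', z', t'⟩
      rw [hi, hj] at a1 a2 a3 a4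
      simp only [Int.cast_inj] at a1 a2 a3 a4
      rw [a1, a2, a3, a4]
    refine ⟨U i, Equiv.ofBijective τ (Finite.injective_iff_bijective.1 hinj), ?_, fun w j => ?_⟩
    · change τ 0 = i
      apply cd_inj
      rw [hτ 0]
      have h9 : ∀ i : I, comp (cd i) (cd 0) = cd i := by decide +kernel
      exact h9 i
    · change p w (τ j) = _
      rw [p_comp (hτ j), hU]

end Q196.OP
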