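import Pool.Agent.Q196.OP.Fac

set_option autoImplicit false

namespace Q196.OP

open Set Metric Topology Filter

/-- The singletons as faces. -/
def sing {p : I → V} (h : ∀ i, IsCon p {i}) (i : I) : Fa p := ⟨{i}, Or.inl (h i)⟩

/-- The empty face. -/
def botF (p : I → V) : Fa p := ⟨∅, Or.inl ⟨0, fun i => by simp, by ext i; simp [Con]⟩⟩

/-- The improper face. -/
def topF (p : I → V) : Fa p := ⟨univ, Or.inr rfl⟩

theorem sing_nonempty {p p' : I → V} (h : ∀ i, IsCon p {i}) (f : Fa p ≃o Fa p') (i : I) :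
    (f (sing h i)).1.Nonempty := by
  by_contra hne
  rw [not_nonempty_iff_eq_empty] at hne
  have h1 : f (sing h i) ≤ f (botF p) := by
    change (f (sing h i)).1 ⊆ (f (botF p)).1
    rw [hne]
    exact empty_subset _
  have h2 : sing h i ≤ botF p := f.le_iff_le.1 h1
  exact h2 (mem_singleton i)

theorem sing_map {p p' : I → V} (h : ∀ i, IsCon p {i}) (h' : ∀ i, IsCon p' {i})
    (f : Fa p ≃o Fa p') (i : I) : ∃ j, f (sing h i) = sing h' j := by
  obtain ⟨j, hj⟩ := sing_nonempty h f i
  refine ⟨j, ?_⟩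
  have h1 : sing h' j ≤ f (sing h i) := singleton_subset_iff.2 hj
  have h2 : f.symm (sing h' j) ≤ sing h i := by
    rw [← f.symm_apply_apply (sing h i)]
    exact f.symm.monotone h1
  have h3 : (f.symm (sing h' j)).1.Nonempty := sing_nonempty h' f.symm j
  have h4 : f.symm (sing h' j) = sing h i := by
    apply Subtype.ext
    change _ = ({i} : Set I)
    exact (h3.subset_singleton_iff).1 h2
  rw [← h4, f.apply_symm_apply]

/-- INV. -/
theorem t_INV : S_INV := by
  rintro p p' hg hg' h h' ⟨f⟩ n ⟨T, hT, hn⟩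
  choose σ hσ using sing_map h h' f
  have hσi : Function.Injective σ := by
    intro i j hij
    have h1 : f (sing h i) = f (sing h j) := by rw [hσ, hσ, hij]
    have h2 := f.injective h1
    have h3 : ({i} : Set I) = {j} := congrArg Subtype.val h2
    exact singleton_injective h3
  have hσs : Function.Surjective σ := Finite.surjective_of_injective hσi
  have hmem : ∀ (S : Fa p) (i : I), i ∈ S.1 ↔ σ i ∈ (f S).1 := by
    intro S i
    have h1 : sing h i ≤ S ↔ f (sing h i) ≤ f S := f.le_iff_le.symm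
    rw [hσ] at h1
    have h2 : sing h i ≤ S ↔ i ∈ S.1 := singleton_subset_iff
    have h3 : sing h' (σ i) ≤ f S ↔ σ i ∈ (f S).1 := singleton_subset_iff
    rw [← h2, ← h3]
    exact h1
  have hcard : ∀ S : Fa p, (f S).1.ncard = S.1.ncard := by
    intro S
    have e : (f S).1 = σ '' S.1 := by
      ext j
      obtain ⟨i, rfl⟩ := hσs j
      rw [← hmem]
      exact ⟨fun hi => ⟨i, hi, rfl⟩, fun ⟨k, hk, hki⟩ => hσi hki ▸ hk⟩
    rw [e, ncard_image_of_injective _ hσi]
  set S : Fa p := ⟨T, Or.inl hT.isCon⟩ with hS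
  have hTop : ∀ {q q' : I → V} (g : Fa q ≃o Fa q') (R : Fa q), R.1 ≠ univ → (g R).1 ≠ univ := by
    intro q q' g R hR hu
    have h1 : g (topF q) ≤ g R := by
      change (g (topF q)).1 ⊆ (g R).1
      rw [hu]
      exact subset_univ _
    have h2 : topF q ≤ R := g.le_iff_le.1 h1
    exact hR (univ_subset_iff.1 h2)
  have hTu : T ≠ univ := by
    obtain ⟨i, hi⟩ := exists_not_mem hg hT.isCon
    intro hu
    rw [hu] at hi
    exact hi (mem_univ i)
  have hS' := hTop f S hTu
  have hcon : IsCon p' (f S).1 := (f S).2.resolve_right hS'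
  obtain ⟨i, hi⟩ := exists_not_mem hg' hcon
  obtain ⟨T1, hT1, hsub, hiT1⟩ := t_FAC p' hg' _ i hcon hi
  set S1 : Fa p' := ⟨T1, Or.inl hT1.isCon⟩ with hS1
  have hT1u : S1.1 ≠ univ := by
    intro hu
    apply hiT1
    change i ∈ S1.1
    rw [hu]
    exact mem_univ i
  have hR := hTop f.symm S1 hT1u
  have hRc : IsCon p (f.symm S1).1 := (f.symm S1).2.resolve_right hR
  have hle : S ≤ f.symm S1 := by
    have h1 : f S ≤ S1 := hsub
    have h2 := f.symm.monotone h1
    rwa [f.symm_apply_apply] at h2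
  have heq : (f.symm S1).1 = T := by
    obtain ⟨l, _, hl, hu⟩ := hT
    obtain ⟨l', _, hl'⟩ := hRc
    have h1 := hu l' fun i hi => by
      have h2 : i ∈ (f.symm S1).1 := hle hi
      rw [← hl'] at h2
      exact h2
    rw [← hl, ← hl', h1]
  have hfin : f.symm S1 = S := Subtype.ext heq
  have hfS : f S = S1 := by rw [← hfin, f.apply_symm_apply]
  refine ⟨T1, hT1, ?_⟩
  have h1 := hcard S
  rw [hfS] at h1
  rw [← hn]
  exact h1

end Q196.OP
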