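import Pool.Agent.Q196.OP.Cert

set_option autoImplicit false

namespace Q196.OP

open Set Metric Topology Filter

/-- The normal of the hyperplane through `w` and three other points of the orbit. -/
def NN {R : Type} [Mul R] [Sub R] [Add R] [Neg R] (v : Q4 R) (a b c : I) : Q4 R :=
  cr (sub (act (cd a) v) v) (sub (act (cd b) v) v) (sub (act (cd c) v) v)

/-- The slack of the point number `m`. -/
def gz {R : Type} [Mul R] [Sub R] [Add R] [Neg R] (v : Q4 R) (a b c m : I) : R :=
  dot (NN v a b c) v * (dot (NN v a b c) (act (cd m) v) - dot (NN v a b c) v)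

/-- The product of the four linear forms. -/
def four (v : Q4 ℝ) : ℝ := v.z * (v.x - v.y - 2 * v.t) * (v.x - v.y) * (v.x + v.z + 2 * v.t)

theorem cont_sel (n : ℕ) : Continuous fun w : V => sel (ofV w) n := by
  unfold sel ofV
  split <;> fun_prop

theorem cont_D (a b c : I) : Continuous fun w : V => dot (NN (ofV w) a b c) (ofV w) := by
  have h : ∀ n, Continuous fun w : V => sel (ofV w) n := cont_sel
  generalize hg : (fun (n : ℕ) (w : V) => sel (ofV w) n) = g
  have h' : ∀ n, Continuous (g n) := by rw [← hg]; exact h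
  have e : ∀ n (w : V), sel (ofV w) n = g n w := fun n w => by rw [← hg]
  simp only [NN, dot, cr, sub, act, e]
  simp only [ofV]
  fun_prop

theorem cont_g (a b c m : I) : Continuous fun w : V => gz (ofV w) a b c m := by
  have h : ∀ n, Continuous fun w : V => sel (ofV w) n := cont_sel
  generalize hg : (fun (n : ℕ) (w : V) => sel (ofV w) n) = g
  have h' : ∀ n, Continuous (g n) := by rw [← hg]; exact h
  have e : ∀ n (w : V), sel (ofV w) n = g n w := fun n w => by rw [← hg]
  simp only [gz, NN, dot, cr, sub, act, e]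
  simp only [ofV]
  fun_prop

theorem NN_cast (a b c : I) : NN (cast4 wZ) a b c = cast4 (NN wZ a b c) := by
  simp only [NN, act_cast, sub_cast, cr_cast]

theorem gz_cast (a b c m : I) : gz (cast4 wZ) a b c m = ((gz wZ a b c m : ℤ) : ℝ) := by
  simp only [gz, NN_cast, act_cast, dot_cast]
  push_cast
  ring

theorem dot_toV (N : Q4 ℝ) (w : V) : inner ℝ (toV N) w = dot N (ofV w) := by
  rw [inner_eq, ofV_toV]

theorem dot_smul (s : ℝ) (N : Q4 ℝ) (w : V) : inner ℝ (s • toV N) w = s * dot N (ofV w) := by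
  rw [inner_smul_left, dot_toV]; simp

/-- The facets near `w0`, from the data of a facet. -/
theorem near_gen (L : List I) (a b c : I) (κ : I → ℝ) (h0 : (0 : I) ∈ L) (ha : a ∈ L) (hb : b ∈ L)
    (hc : c ∈ L)
    (hid : ∀ (v : Q4 ℝ), ∀ m ∈ L, dot (NN v a b c) (act (cd m) v) - dot (NN v a b c) v = κ m * four v)
    (hD : dot (NN wZ a b c) wZ ≠ 0) (hneg : ∀ m : I, m ∉ L → gz wZ a b c m < 0)
    (hk : L.length ≠ 5 → ∀ m ∈ L, κ m = 0) (hk5 : L.length = 5 → ∃ m ∈ L, κ m ≠ 0) :
    ∀ᶠ w in 𝓝 w0, ((L.length ≠ 5 ∨ cross w = 0) → IsFac (p w) {i | i ∈ L}) ∧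
      (L.length = 5 → cross w ≠ 0 → ¬ ∃ l : V, ∀ i ∈ L, inner ℝ l (p w i) = 1) := by
  have e1 : ∀ᶠ w in 𝓝 w0, dot (NN (ofV w) a b c) (ofV w) ≠ 0 := by
    refine (cont_D a b c).continuousAt.eventually_ne ?_
    rw [ofV_w0, NN_cast, dot_cast]
    exact_mod_cast hD
  have e2 : ∀ᶠ w in 𝓝 w0, ∀ m : I, m ∉ L → gz (ofV w) a b c m < 0 := by
    rw [eventually_all]
    intro m
    by_cases hm : m ∈ L
    · exact Eventually.of_forall fun w h => absurd hm h
    · have hlt : (fun w : V => gz (ofV w) a b c m) w0 < 0 := by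
        change gz (ofV w0) a b c m < 0
        rw [ofV_w0, gz_cast]
        exact_mod_cast hneg m hm
      exact ((cont_g a b c m).continuousAt.eventually_lt_const hlt).mono fun w hw _ => hw
  have e3 : ∀ᶠ w in 𝓝 w0, (w 0 - w 1) * (w 0 + w 2 + 2 * w 3) ≠ 0 := by
    have hc : Continuous fun w : V => (w 0 - w 1) * (w 0 + w 2 + 2 * w 3) := by fun_prop
    refine hc.continuousAt.eventually_ne ?_
    simp [w0]
    norm_num
  filter_upwards [e1, e2, e3] with w h1 h2 h3
  set N := NN (ofV w) a b c with hN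
  set D := dot N (ofV w) with hDd
  have hpm : ∀ m, ofV (p w m) = act (cd m) (ofV w) := fun m => ofV_p w m
  have hp0 : ofV (p w 0) = ofV w := by rw [p_zero]
  have hfour : four (ofV w) = cross w * ((w 0 - w 1) * (w 0 + w 2 + 2 * w 3)) := by
    simp only [four, cross, ofV]; ring
  -- functionals equal to one on the four points
  have huni : ∀ l : V, (∀ i ∈ L, inner ℝ l (p w i) = 1) → ∀ P : Q4 ℝ, D * dot (ofV l) P = dot N P := by
    intro l hl P
    have q : ∀ m ∈ L, dot (ofV l) (act (cd m) (ofV w)) = 1 := by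
      intro m hm
      rw [← hpm, ← inner_eq]
      exact hl m hm
    have q0 : dot (ofV l) (ofV w) = 1 := by
      rw [← hp0, ← inner_eq]; exact hl 0 h0
    exact cramer (ofV l) (ofV w) _ _ _ P q0 (by rw [dot_sub, q a ha, q0]; ring)
      (by rw [dot_sub, q b hb, q0]; ring) (by rw [dot_sub, q c hc, q0]; ring)
  constructor
  · intro hcond
    have hz : ∀ m ∈ L, dot N (act (cd m) (ofV w)) = D := by
      intro m hm
      have h4 := hid (ofV w) m hm
      have h5 : κ m * four (ofV w) = 0 := by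
        rcases hcond with h | h
        · rw [hk h m hm, zero_mul]
        · rw [hfour, h]; ring
      rw [h5] at h4
      linarith
    refine ⟨D⁻¹ • toV N, ?_, ?_, ?_⟩
    · intro m
      rw [dot_smul, hpm]
      by_cases hm : m ∈ L
      · rw [hz m hm, inv_mul_cancel₀ h1]
      · have h4 := h2 m hm
        change D * (dot N (act (cd m) (ofV w)) - D) < 0 at h4
        have h5 : D⁻¹ * dot N (act (cd m) (ofV w)) - 1 =
            (D * (dot N (act (cd m) (ofV w)) - D)) / D ^ 2 := by
          field_simp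
        have h6 : (D * (dot N (act (cd m) (ofV w)) - D)) / D ^ 2 < 0 :=
          div_neg_of_neg_of_pos h4 (by positivity)
        linarith
    · ext m
      simp only [Con, mem_setOf_eq]
      rw [dot_smul, hpm]
      constructor
      · intro h
        by_contra hm
        have h4 := h2 m hm
        change D * (dot N (act (cd m) (ofV w)) - D) < 0 at h4
        have h5 : dot N (act (cd m) (ofV w)) = D := by
          field_simp at h
          exact h
        rw [h5] at h4
        simp at h4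
      · intro hm
        rw [hz m hm, inv_mul_cancel₀ h1]
    · intro l' hl'
      have h4 := huni l' fun i hi => hl' i hi
      have h5 : ∀ u : V, inner ℝ l' u = inner ℝ (D⁻¹ • toV N) u := by
        intro u
        rw [dot_smul, inner_eq, ← h4 (ofV u)]
        field_simp
      exact ext_inner_right ℝ h5
  · intro hlen hcr
    rintro ⟨l, hl⟩
    obtain ⟨m, hm, hkm⟩ := hk5 hlen
    have h4 := hid (ofV w) m hm
    have h5 := huni l hl (act (cd m) (ofV w))
    have h6 : dot (ofV l) (act (cd m) (ofV w)) = 1 := by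
      rw [← hpm, ← inner_eq]; exact hl m hm
    rw [h6, mul_one] at h5
    rw [← h5, hfour] at h4
    have h7 : κ m * (cross w * ((w 0 - w 1) * (w 0 + w 2 + 2 * w 3))) ≠ 0 :=
      mul_ne_zero hkm (mul_ne_zero hcr h3)
    apply h7
    rw [← h4]
    ring

theorem near_0 : ∀ᶠ w in 𝓝 w0,
    ((([0, 5, 12, 13] : List I).length ≠ 5 ∨ cross w = 0) → IsFac (p w) {i | i ∈ ([0, 5, 12, 13] : List I)}) ∧
      (([0, 5, 12, 13] : List I).length = 5 → cross w ≠ 0 →
        ¬ ∃ l : V, ∀ i ∈ ([0, 5, 12, 13] : List I), inner ℝ l (p w i) = 1) := by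
  refine near_gen [0, 5, 12, 13] 5 12 13 (fun _ => 0) (by decide) (by decide) (by decide) (by decide)
    ?_ (by decide +kernel) (by decide +kernel) (fun _ _ _ => rfl) (fun h => absurd h (by decide))
  intro v m hm
  obtain ⟨x, y, z, t⟩ := v
  simp only [List.mem_cons, List.not_mem_nil, or_false] at hm
  rcases hm with rfl | rfl | rfl | rfl <;>
    simp [NN, cd, codes, act, sel, cr, dot, sub, four] <;> ring

theorem near_1 : ∀ᶠ w in 𝓝 w0,
    ((([0, 6, 11, 43] : List I).length ≠ 5 ∨ cross w = 0) → IsFac (p w) {i | i ∈ ([0, 6, 11, 43] : List I)}) ∧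
      (([0, 6, 11, 43] : List I).length = 5 → cross w ≠ 0 →
        ¬ ∃ l : V, ∀ i ∈ ([0, 6, 11, 43] : List I), inner ℝ l (p w i) = 1) := by
  refine near_gen [0, 6, 11, 43] 6 11 43 (fun _ => 0) (by decide) (by decide) (by decide) (by decide)
    ?_ (by decide +kernel) (by decide +kernel) (fun _ _ _ => rfl) (fun h => absurd h (by decide))
  intro v m hm
  obtain ⟨x, y, z, t⟩ := v
  simp only [List.mem_cons, List.not_mem_nil, or_false] at hm
  rcases hm with rfl | rfl | rfl | rfl <;>
    simp [NN, cd, codes, act, sel, cr, dot, sub, four] <;> ring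

theorem near_2 : ∀ᶠ w in 𝓝 w0,
    ((([0, 5, 6, 8, 10] : List I).length ≠ 5 ∨ cross w = 0) → IsFac (p w) {i | i ∈ ([0, 5, 6, 8, 10] : List I)}) ∧
      (([0, 5, 6, 8, 10] : List I).length = 5 → cross w ≠ 0 →
        ¬ ∃ l : V, ∀ i ∈ ([0, 5, 6, 8, 10] : List I), inner ℝ l (p w i) = 1) := by
  refine near_gen [0, 5, 6, 8, 10] 5 6 10 (fun m => if m = 8 then (-2) else 0) (by decide) (by decide) (by decide) (by decide)
    ?_ (by decide +kernel) (by decide +kernel) (fun h => absurd rfl h) (fun _ => ⟨8, by decide, by norm_num⟩)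
  intro v m hm
  obtain ⟨x, y, z, t⟩ := v
  simp only [List.mem_cons, List.not_mem_nil, or_false] at hm
  rcases hm with rfl | rfl | rfl | rfl | rfl <;>
    simp [NN, cd, codes, act, sel, cr, dot, sub, four] <;> ring

theorem near_3 : ∀ᶠ w in 𝓝 w0,
    ((([0, 5, 6, 8, 11] : List I).length ≠ 5 ∨ cross w = 0) → IsFac (p w) {i | i ∈ ([0, 5, 6, 8, 11] : List I)}) ∧
      (([0, 5, 6, 8, 11] : List I).length = 5 → cross w ≠ 0 →
        ¬ ∃ l : V, ∀ i ∈ ([0, 5, 6, 8, 11] : List I), inner ℝ l (p w i) = 1) := by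
  refine near_gen [0, 5, 6, 8, 11] 5 6 11 (fun m => if m = 8 then (-2) else 0) (by decide) (by decide) (by decide) (by decide)
    ?_ (by decide +kernel) (by decide +kernel) (fun h => absurd rfl h) (fun _ => ⟨8, by decide, by norm_num⟩)
  intro v m hm
  obtain ⟨x, y, z, t⟩ := v
  simp only [List.mem_cons, List.not_mem_nil, or_false] at hm
  rcases hm with rfl | rfl | rfl | rfl | rfl <;>
    simp [NN, cd, codes, act, sel, cr, dot, sub, four] <;> ring

theorem near_4 : ∀ᶠ w in 𝓝 w0,
    ((([0, 6, 19, 37, 42] : List I).length ≠ 5 ∨ cross w = 0) → IsFac (p w) {i | i ∈ ([0, 6, 19, 37, 42] : List I)}) ∧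
      (([0, 6, 19, 37, 42] : List I).length = 5 → cross w ≠ 0 →
        ¬ ∃ l : V, ∀ i ∈ ([0, 6, 19, 37, 42] : List I), inner ℝ l (p w i) = 1) := by
  refine near_gen [0, 6, 19, 37, 42] 6 19 37 (fun m => if m = 42 then (2) else 0) (by decide) (by decide) (by decide) (by decide)
    ?_ (by decide +kernel) (by decide +kernel) (fun h => absurd rfl h) (fun _ => ⟨42, by decide, by norm_num⟩)
  intro v m hm
  obtain ⟨x, y, z, t⟩ := v
  simp only [List.mem_cons, List.not_mem_nil, or_false] at hm
  rcases hm with rfl | rfl | rfl | rfl | rfl <;>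
    simp [NN, cd, codes, act, sel, cr, dot, sub, four] <;> ring

theorem near_5 : ∀ᶠ w in 𝓝 w0,
    ((([0, 6, 19, 42, 43] : List I).length ≠ 5 ∨ cross w = 0) → IsFac (p w) {i | i ∈ ([0, 6, 19, 42, 43] : List I)}) ∧
      (([0, 6, 19, 42, 43] : List I).length = 5 → cross w ≠ 0 →
        ¬ ∃ l : V, ∀ i ∈ ([0, 6, 19, 42, 43] : List I), inner ℝ l (p w i) = 1) := by
  refine near_gen [0, 6, 19, 42, 43] 6 19 43 (fun m => if m = 42 then (2) else 0) (by decide) (by decide) (by decide) (by decide)
    ?_ (by decide +kernel) (by decide +kernel) (fun h => absurd rfl h) (fun _ => ⟨42, by decide, by norm_num⟩)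
  intro v m hm
  obtain ⟨x, y, z, t⟩ := v
  simp only [List.mem_cons, List.not_mem_nil, or_false] at hm
  rcases hm with rfl | rfl | rfl | rfl | rfl <;>
    simp [NN, cd, codes, act, sel, cr, dot, sub, four] <;> ring

theorem near_6 : ∀ᶠ w in 𝓝 w0,
    ((([0, 12, 13, 36, 37] : List I).length ≠ 5 ∨ cross w = 0) → IsFac (p w) {i | i ∈ ([0, 12, 13, 36, 37] : List I)}) ∧
      (([0, 12, 13, 36, 37] : List I).length = 5 → cross w ≠ 0 →
        ¬ ∃ l : V, ∀ i ∈ ([0, 12, 13, 36, 37] : List I), inner ℝ l (p w i) = 1) := by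
  refine near_gen [0, 12, 13, 36, 37] 12 13 36 (fun m => if m = 37 then (-2) else 0) (by decide) (by decide) (by decide) (by decide)
    ?_ (by decide +kernel) (by decide +kernel) (fun h => absurd rfl h) (fun _ => ⟨37, by decide, by norm_num⟩)
  intro v m hm
  obtain ⟨x, y, z, t⟩ := v
  simp only [List.mem_cons, List.not_mem_nil, or_false] at hm
  rcases hm with rfl | rfl | rfl | rfl | rfl <;>
    simp [NN, cd, codes, act, sel, cr, dot, sub, four] <;> ring

theorem near_7 : ∀ᶠ w in 𝓝 w0,
    ((([0, 4, 6, 10, 36, 37] : List I).length ≠ 5 ∨ cross w = 0) → IsFac (p w) {i | i ∈ ([0, 4, 6, 10, 36, 37] : List I)}) ∧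
      (([0, 4, 6, 10, 36, 37] : List I).length = 5 → cross w ≠ 0 →
        ¬ ∃ l : V, ∀ i ∈ ([0, 4, 6, 10, 36, 37] : List I), inner ℝ l (p w i) = 1) := by
  refine near_gen [0, 4, 6, 10, 36, 37] 4 6 10 (fun _ => 0) (by decide) (by decide) (by decide) (by decide)
    ?_ (by decide +kernel) (by decide +kernel) (fun _ _ _ => rfl) (fun h => absurd h (by decide))
  intro v m hm
  obtain ⟨x, y, z, t⟩ := v
  simp only [List.mem_cons, List.not_mem_nil, or_false] at hm
  rcases hm with rfl | rfl | rfl | rfl | rfl | rfl <;>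
    simp [NN, cd, codes, act, sel, cr, dot, sub, four] <;> ring

theorem near_8 : ∀ᶠ w in 𝓝 w0,
    ((([0, 5, 10, 12, 36, 44] : List I).length ≠ 5 ∨ cross w = 0) → IsFac (p w) {i | i ∈ ([0, 5, 10, 12, 36, 44] : List I)}) ∧
      (([0, 5, 10, 12, 36, 44] : List I).length = 5 → cross w ≠ 0 →
        ¬ ∃ l : V, ∀ i ∈ ([0, 5, 10, 12, 36, 44] : List I), inner ℝ l (p w i) = 1) := by
  refine near_gen [0, 5, 10, 12, 36, 44] 5 10 12 (fun _ => 0) (by decide) (by decide) (by decide) (by decide)
    ?_ (by decide +kernel) (by decide +kernel) (fun _ _ _ => rfl) (fun h => absurd h (by decide))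
  intro v m hm
  obtain ⟨x, y, z, t⟩ := v
  simp only [List.mem_cons, List.not_mem_nil, or_false] at hm
  rcases hm with rfl | rfl | rfl | rfl | rfl | rfl <;>
    simp [NN, cd, codes, act, sel, cr, dot, sub, four] <;> ring

theorem near_9 : ∀ᶠ w in 𝓝 w0,
    ((([0, 5, 11, 13, 41, 43] : List I).length ≠ 5 ∨ cross w = 0) → IsFac (p w) {i | i ∈ ([0, 5, 11, 13, 41, 43] : List I)}) ∧
      (([0, 5, 11, 13, 41, 43] : List I).length = 5 → cross w ≠ 0 →
        ¬ ∃ l : V, ∀ i ∈ ([0, 5, 11, 13, 41, 43] : List I), inner ℝ l (p w i) = 1) := by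
  refine near_gen [0, 5, 11, 13, 41, 43] 5 11 13 (fun _ => 0) (by decide) (by decide) (by decide) (by decide)
    ?_ (by decide +kernel) (by decide +kernel) (fun _ _ _ => rfl) (fun h => absurd h (by decide))
  intro v m hm
  obtain ⟨x, y, z, t⟩ := v
  simp only [List.mem_cons, List.not_mem_nil, or_false] at hm
  rcases hm with rfl | rfl | rfl | rfl | rfl | rfl <;>
    simp [NN, cd, codes, act, sel, cr, dot, sub, four] <;> ring

theorem near_10 : ∀ᶠ w in 𝓝 w0,
    ((([0, 13, 19, 24, 37, 43] : List I).length ≠ 5 ∨ cross w = 0) → IsFac (p w) {i | i ∈ ([0, 13, 19, 24, 37, 43] : List I)}) ∧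
      (([0, 13, 19, 24, 37, 43] : List I).length = 5 → cross w ≠ 0 →
        ¬ ∃ l : V, ∀ i ∈ ([0, 13, 19, 24, 37, 43] : List I), inner ℝ l (p w i) = 1) := by
  refine near_gen [0, 13, 19, 24, 37, 43] 13 19 24 (fun _ => 0) (by decide) (by decide) (by decide) (by decide)
    ?_ (by decide +kernel) (by decide +kernel) (fun _ _ _ => rfl) (fun h => absurd h (by decide))
  intro v m hm
  obtain ⟨x, y, z, t⟩ := v
  simp only [List.mem_cons, List.not_mem_nil, or_false] at hm
  rcases hm with rfl | rfl | rfl | rfl | rfl | rfl <;>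
    simp [NN, cd, codes, act, sel, cr, dot, sub, four] <;> ring

/-- NEAR. -/
theorem t_NEAR : S_NEAR := by
  have hfin : {L : List I | L ∈ faces}.Finite := List.finite_toSet faces
  refine (eventually_all_finite hfin).2 fun L hL => ?_
  simp only [mem_setOf_eq, faces, List.mem_cons, List.not_mem_nil, or_false] at hL
  rcases hL with rfl | rfl | rfl | rfl | rfl | rfl | rfl | rfl | rfl | rfl | rfl
  · exact near_0
  · exact near_1
  · exact near_2
  · exact near_3
  · exact near_4
  · exact near_5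
  · exact near_6
  · exact near_7
  · exact near_8
  · exact near_9
  · exact near_10

end Q196.OP
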