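import Pool.Agent.Q196.OP.Good
import Pool.Agent.Q196.OP.Asm

set_option autoImplicit false

namespace Q196.OP

open Set Metric Topology Filter

/-- USC. -/
theorem t_USC : S_USC := by
  intro p w0 hc hR
  obtain ⟨R, hR⟩ := hR
  rw [eventually_all]
  intro S
  by_cases hS : ∃ l, Supp (p w0) l ∧ S ⊆ Con (p w0) l
  · exact Eventually.of_forall fun w _ => hS
  obtain ⟨ε, hε, hball⟩ := Metric.eventually_nhds_iff_ball.1 hR
  set K : Set (V × V) := (closedBall w0 (ε / 2) ×ˢ closedBall 0 R) ∩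
    {x | (∀ i, inner ℝ x.2 (p x.1 i) ≤ 1) ∧ ∀ i ∈ S, inner ℝ x.2 (p x.1 i) = 1} with hK
  have hcont : ∀ i, Continuous fun x : V × V => (inner ℝ x.2 (p x.1 i) : ℝ) := fun i =>
    continuous_snd.inner ((hc i).comp continuous_fst)
  have hKc : IsCompact K := by
    refine ((isCompact_closedBall w0 _).prod (isCompact_closedBall 0 R)).inter_right ?_
    have e : {x : V × V | (∀ i, inner ℝ x.2 (p x.1 i) ≤ 1) ∧ ∀ i ∈ S, inner ℝ x.2 (p x.1 i) = 1} =
        (⋂ i, {x : V × V | (inner ℝ x.2 (p x.1 i) : ℝ) ≤ 1}) ∩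
          ⋂ i ∈ S, {x : V × V | (inner ℝ x.2 (p x.1 i) : ℝ) = 1} := by
      ext x; simp
    rw [e]
    refine (isClosed_iInter fun i => isClosed_le (hcont i) continuous_const).inter ?_
    exact isClosed_biInter fun i _ => isClosed_eq (hcont i) continuous_const
  have hcl : IsClosed (Prod.fst '' K) := (hKc.image continuous_fst).isClosed
  have hn : w0 ∉ Prod.fst '' K := by
    rintro ⟨⟨a, l⟩, ⟨_, h1, h2⟩, rfl⟩
    exact hS ⟨l, h1, fun i hi => h2 i hi⟩
  have h1 : ∀ᶠ w in 𝓝 w0, w ∉ Prod.fst '' K := hcl.isOpen_compl.mem_nhds hn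
  have h2 : ∀ᶠ w in 𝓝 w0, w ∈ closedBall w0 (ε / 2) := closedBall_mem_nhds _ (by linarith)
  filter_upwards [h1, h2] with w h1 h2 h3
  exfalso
  obtain ⟨l, hl, hl2⟩ := h3
  refine h1 ⟨(w, l), ⟨⟨h2, ?_⟩, hl, fun i hi => hl2 hi⟩, rfl⟩
  rw [mem_closedBall_zero_iff]
  refine hball w ?_ l hl
  rw [mem_closedBall] at h2
  rw [mem_ball]
  linarith

/-- INJ. -/
theorem t_INJ : S_INJ := by
  have h1 : ∀ᶠ w in 𝓝 w0, ∀ i j : I, i ≠ j → p w i ≠ p w j := by
    rw [eventually_all]
    intro i
    rw [eventually_all]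
    intro j
    by_cases hij : i = j
    · exact Eventually.of_forall fun w h => absurd hij h
    · have hne : p w0 i ≠ p w0 j := by
        intro h
        have h2 : cast4 (pt i) = cast4 (pt j) := by rw [← ofV_p0, ← ofV_p0, h]
        apply hij
        apply pt_inj
        simp only [cast4, Q4.mk.injEq] at h2
        obtain ⟨a1, a2, a3, a4⟩ := h2
        rcases hi : pt i with ⟨x, y, z, t⟩
        rcases hj : pt j with ⟨x', y', z', t'⟩
        rw [hi, hj] at a1 a2 a3 a4
        simp only [Int.cast_inj] at a1 a2 a3 a4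
        rw [a1, a2, a3, a4]
      have hc : Continuous fun w => p w i - p w j := (continuous_p i).sub (continuous_p j)
      have := hc.continuousAt.eventually_ne (x := w0) (y := 0) (by
        simpa [sub_eq_zero] using hne)
      filter_upwards [this] with w hw _
      exact sub_ne_zero.1 hw
  have h2 : ∀ᶠ w in 𝓝 w0, w ≠ 0 := continuousAt_id.eventually_ne w0_ne
  filter_upwards [h1, h2] with w hw hw0 i
  have hpos : 0 < ‖w‖ ^ 2 := by positivity
  have key : ∀ j, i ≠ j → inner ℝ (p w i) (p w j) < ‖w‖ ^ 2 := by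
    intro j hij
    have h3 : 0 < ‖p w i - p w j‖ ^ 2 := by
      have := sub_ne_zero.2 (hw i j hij)
      positivity
    rw [norm_sub_sq_real, norm_p, norm_p] at h3
    linarith
  refine ⟨(‖w‖ ^ 2)⁻¹ • p w i, fun j => ?_, ?_⟩
  · rw [real_inner_smul_left]
    by_cases hij : i = j
    · rw [← hij, real_inner_self_eq_norm_sq, norm_p, inv_mul_cancel₀ hpos.ne']
    · rw [inv_mul_le_iff₀ hpos, mul_one]
      exact (key j hij).le
  · ext j
    simp only [Con, mem_setOf_eq, mem_singleton_iff]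
    rw [real_inner_smul_left]
    constructor
    · intro h
      by_contra hji
      have h3 := key j (fun h => hji h.symm)
      rw [inv_mul_eq_one₀ hpos.ne'] at h
      linarith
    · rintro rfl
      rw [real_inner_self_eq_norm_sq, norm_p, inv_mul_cancel₀ hpos.ne']

end Q196.OP
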